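import Pool.Agent.Q119.Lev.Sub

/-!
# Adding few lines makes every prescribed level linear
-/

set_option autoImplicit false

namespace Q119.Lev

open Finset Pool.Agent.H189R2.Lev Pool.Agent.H189R2.Iid Pool.Agent.Y344.KD
open Pool.Agent.Results.MP_a08d0a_co.SmoothedLevel (Simple crossings psi psi_le)

variable {n : ℕ}

theorem cross_le_EW {a B : Fin n → ℝ} {P : Fin n → ℝ × ℝ}
    (hP : ∀ i j, a j < a i → (P j).1 < (P i).1 ∧ ∀ l, (P l ∈ low (P i) (P j) ↔
      ht a B l (cr a B i j) < ht a B i (cr a B i j))) (k : ℕ) :
    (crossings a B k).ncard ≤ (EW P {k}).card := by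
  classical
  rw [← Set.ncard_coe_finset (EW P {k})]
  have key : ∀ i j, a j < a i →
      {l | ht a B l (cr a B i j) < ht a B i (cr a B i j)}.ncard = lev P (i, j) := by
    intro i j hij
    unfold lev
    rw [← Set.ncard_coe_finset]
    congr 1
    ext l
    simp only [Set.mem_ofPred_eq, coe_filter, mem_univ, true_and]
    exact ((hP i j hij).2 l).symm
  apply Set.ncard_le_ncard_of_injOn (fun q : Fin n × Fin n =>
    if a q.2 < a q.1 then (q.1, q.2) else (q.2, q.1))
  · rintro ⟨i, j⟩ ⟨h1, h2, h3⟩
    simp only at h1 h2 h3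
    rw [mem_coe]
    unfold EW
    rw [mem_filter, mem_T]
    simp only
    by_cases h : a j < a i
    · rw [if_pos h]
      exact ⟨(hP _ _ h).1, by rw [← key i j h, mem_singleton]; exact h3⟩
    · rw [if_neg h]
      have h' : a i < a j := lt_of_le_of_ne (not_lt.mp h) h2
      refine ⟨(hP _ _ h').1, ?_⟩
      rw [← key j i h', mem_singleton]
      have h4 := ht_cr (a := a) (B := B) h2
      rw [cr_symm, h4]
      exact h3
  · rintro ⟨i, j⟩ ⟨h1, h2, _⟩ ⟨i', j'⟩ ⟨h1', h2', _⟩ heq
    simp only at h1 h2 h1' h2' heq
    split_ifs at heq with h h' h'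
    · exact heq
    · rw [Prod.mk.injEq] at heq
      rw [heq.1, heq.2] at h1
      exact absurd h1 (lt_asymm h1')
    · rw [Prod.mk.injEq] at heq
      rw [heq.1, heq.2] at h1
      exact absurd h1 (lt_asymm h1')
    · rw [Prod.mk.injEq] at heq
      rw [heq.1, heq.2]

/-- heights of the crossings and intercepts are smaller than `M` -/
def Big (a B : Fin n → ℝ) (M : ℝ) : Prop :=
  0 < M ∧ (∀ i, |B i| < M) ∧ ∀ i j, a i ≠ a j → |ht a B i (cr a B i j)| < M

theorem exists_big (a B : Fin n → ℝ) : ∃ M, Big a B M := by
  classical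
  set M := 1 + ∑ i, |B i| + ∑ q : Fin n × Fin n, |ht a B q.1 (cr a B q.1 q.2)| with hM
  have h1 : 0 ≤ ∑ i, |B i| := sum_nonneg (fun _ _ => abs_nonneg _)
  have h2 : 0 ≤ ∑ q : Fin n × Fin n, |ht a B q.1 (cr a B q.1 q.2)| :=
    sum_nonneg (fun _ _ => abs_nonneg _)
  refine ⟨M, by rw [hM]; linarith, fun i => ?_, fun i j _ => ?_⟩
  · have := single_le_sum (f := fun i => |B i|) (fun _ _ => abs_nonneg _) (mem_univ i)
    rw [hM]
    linarith
  · have := single_le_sum (f := fun q : Fin n × Fin n => |ht a B q.1 (cr a B q.1 q.2)|)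
      (fun _ _ => abs_nonneg _) (mem_univ (i, j))
    simp only at this
    rw [hM]
    linarith

/-- intercepts of the `D` new horizontal lines, the first `i` of which are below everything -/
noncomputable def newB (D : ℕ) (M : ℝ) (i : ℕ) : Fin D → ℝ :=
  fun j => if (j : ℕ) < i then -(M + j) else M + j

theorem newB_abs {D : ℕ} {M : ℝ} (hM : 0 < M) (i : ℕ) (j : Fin D) : M ≤ |newB D M i j| := by
  unfold newB
  have : (0 : ℝ) ≤ (j : ℕ) := Nat.cast_nonneg _
  split_ifs
  · rw [abs_neg]
    exact le_trans (by linarith) (le_abs_self _)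
  · exact le_trans (by linarith) (le_abs_self _)

theorem newB_inj {D : ℕ} {M : ℝ} (hM : 0 < M) (i : ℕ) : Function.Injective (newB D M i) := by
  have _hM := hM
  intro j j' h
  unfold newB at h
  have h1 : (0 : ℝ) ≤ (j : ℕ) := Nat.cast_nonneg _
  have h2 : (0 : ℝ) ≤ (j' : ℕ) := Nat.cast_nonneg _
  split_ifs at h
  · have : ((j : ℕ) : ℝ) = (j' : ℕ) := by linarith
    exact Fin.ext (by exact_mod_cast this)
  · linarith
  · linarith
  · have : ((j : ℕ) : ℝ) = (j' : ℕ) := by linarith
    exact Fin.ext (by exact_mod_cast this)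

section ext

variable {D : ℕ} {a B : Fin n → ℝ} {M : ℝ} {i : ℕ}

/-- the extended family of slopes -/
noncomputable def eA (D : ℕ) (a : Fin n → ℝ) : Fin (n + D) → ℝ := Fin.append a (fun _ => 0)

/-- the extended family of intercepts -/
noncomputable def eB (D : ℕ) (B : Fin n → ℝ) (M : ℝ) (i : ℕ) : Fin (n + D) → ℝ :=
  Fin.append B (newB D M i)

theorem ht_old (l : Fin n) (x : ℝ) : ht (eA D a) (eB D B M i) (Fin.castAdd D l) x = ht a B l x := by
  unfold ht eA eB
  rw [Fin.append_left, Fin.append_left]

theorem ht_new (l : Fin D) (x : ℝ) :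
    ht (eA D a) (eB D B M i) (Fin.natAdd n l) x = newB D M i l := by
  unfold ht eA eB
  rw [Fin.append_right, Fin.append_right]
  ring

theorem cr_old (l l' : Fin n) : cr (eA D a) (eB D B M i) (Fin.castAdd D l) (Fin.castAdd D l') =
    cr a B l l' := by
  unfold cr eA eB
  simp only [Fin.append_left]

theorem big_common (hM : Big a B M) {l l' : Fin n} (hne : a l ≠ a l') {x : ℝ}
    (h : ht a B l x = ht a B l' x) : |ht a B l x| < M := by
  have hx : x = cr a B l l' := by
    unfold ht at h
    unfold cr
    rw [eq_div_iff (sub_ne_zero.mpr hne)]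
    linarith
  rw [hx]
  exact hM.2.2 l l' hne

theorem simple_ext (hS : Simple a B) (hM : Big a B M) :
    Simple (eA D a) (eB D B M i) := by
  have hold : ∀ l l' : Fin n, l ≠ l' → ∀ x, ht a B l x = ht a B l' x → |ht a B l x| < M := by
    intro l l' hll x h
    by_cases hne : a l = a l'
    · exfalso
      apply hS.1 l l' hll hne
      unfold ht at h
      rw [hne] at h
      linarith
    · exact big_common hM hne h
  refine ⟨?_, ?_⟩
  · intro p q hpq hs
    induction p using Fin.addCases with
    | left p =>
      induction q using Fin.addCases with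
      | left q =>
        unfold eA at hs
        unfold eB
        rw [Fin.append_left, Fin.append_left] at hs ⊢
        exact hS.1 p q (fun h => hpq (by rw [h])) hs
      | right q =>
        unfold eB
        rw [Fin.append_left, Fin.append_right]
        intro h
        have h1 := hM.2.1 p
        have h2 := newB_abs hM.1 i q
        rw [h] at h1
        linarith
    | right p =>
      induction q using Fin.addCases with
      | left q =>
        unfold eB
        rw [Fin.append_left, Fin.append_right]
        intro h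
        have h1 := hM.2.1 q
        have h2 := newB_abs hM.1 i p
        rw [← h] at h1
        linarith
      | right q =>
        unfold eB
        rw [Fin.append_right, Fin.append_right]
        intro h
        exact hpq (by rw [newB_inj hM.1 i h])
  · intro p q r hpq hpr hqr
    rintro ⟨x, h1, h2⟩
    induction p using Fin.addCases with
    | left p =>
      induction q using Fin.addCases with
      | left q =>
        rw [ht_old, ht_old] at h1
        have hpq' : p ≠ q := fun h => hpq (by rw [h])
        induction r using Fin.addCases with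
        | left r =>
          rw [ht_old, ht_old] at h2
          exact hS.2 p q r hpq' (fun h => hpr (by rw [h])) (fun h => hqr (by rw [h])) ⟨x, h1, h2⟩
        | right r =>
          rw [ht_old, ht_new] at h2
          have h3 := hold p q hpq' x h1
          have h4 := newB_abs hM.1 i r
          rw [h2] at h3
          linarith
      | right q =>
        rw [ht_old, ht_new] at h1
        induction r using Fin.addCases with
        | left r =>
          rw [ht_old, ht_old] at h2
          have h3 := hold p r (fun h => hpr (by rw [h])) x h2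
          have h4 := newB_abs hM.1 i q
          rw [h1] at h3
          linarith
        | right r =>
          rw [ht_old, ht_new] at h2
          exact hqr (by rw [newB_inj hM.1 i (h1.symm.trans h2)])
    | right p =>
      induction q using Fin.addCases with
      | left q =>
        rw [ht_old, ht_new] at h1
        induction r using Fin.addCases with
        | left r =>
          rw [ht_old, ht_new] at h2
          have h3 := hold q r (fun h => hqr (by rw [h])) x (h1.symm.trans h2)
          have h4 := newB_abs hM.1 i p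
          rw [← h1] at h3
          linarith
        | right r =>
          rw [ht_new, ht_new] at h2
          exact hpr (by rw [newB_inj hM.1 i h2])
      | right q =>
        rw [ht_new, ht_new] at h1
        exact hpq (by rw [newB_inj hM.1 i h1])

theorem low_ncard (p : Fin (n + D)) (x : ℝ) :
    {l | ht (eA D a) (eB D B M i) l x < ht (eA D a) (eB D B M i) p x}.ncard =
      {l : Fin n | ht a B l x < ht (eA D a) (eB D B M i) p x}.ncard +
      {l : Fin D | newB D M i l < ht (eA D a) (eB D B M i) p x}.ncard := by
  set y := ht (eA D a) (eB D B M i) p x with hy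
  have h1 : {l | ht (eA D a) (eB D B M i) l x < y} =
      (Fin.castAdd D '' {l : Fin n | ht a B l x < y}) ∪
      (Fin.natAdd n '' {l : Fin D | newB D M i l < y}) := by
    ext l
    simp only [Set.mem_ofPred_eq, Set.mem_union, Set.mem_image]
    induction l using Fin.addCases with
    | left l =>
      rw [ht_old]
      constructor
      · intro h
        exact Or.inl ⟨l, h, rfl⟩
      · rintro (⟨l', h, h'⟩ | ⟨l', h, h'⟩)
        · rw [← Fin.castAdd_injective n D h']
          exact h
        · exfalso
          have := congrArg Fin.val h'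
          simp only [Fin.val_natAdd, Fin.val_castAdd] at this
          have := l.2
          omega
    | right l =>
      rw [ht_new]
      constructor
      · intro h
        exact Or.inr ⟨l, h, rfl⟩
      · rintro (⟨l', h, h'⟩ | ⟨l', h, h'⟩)
        · exfalso
          have := congrArg Fin.val h'
          simp only [Fin.val_natAdd, Fin.val_castAdd] at this
          have := l'.2
          omega
        · rw [← Fin.natAdd_injective D n h']
          exact h
  rw [h1, Set.ncard_union_eq, Set.ncard_image_of_injective _ (Fin.castAdd_injective n D),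
    Set.ncard_image_of_injective _ (Fin.natAdd_injective D n)]
  rw [Set.disjoint_left]
  rintro l ⟨l1, -, h1⟩ ⟨l2, -, h2⟩
  rw [← h1] at h2
  have := congrArg Fin.val h2
  simp only [Fin.val_natAdd, Fin.val_castAdd] at this
  have := l1.2
  omega

theorem new_below (hM : 0 < M) (hi : i ≤ D) {y : ℝ} (hy : |y| < M) :
    {l : Fin D | newB D M i l < y}.ncard = i := by
  have h1 : {l : Fin D | newB D M i l < y} = {l : Fin D | (l : ℕ) < i} := by
    ext l
    simp only [Set.mem_ofPred_eq]
    unfold newB
    have h0 : (0 : ℝ) ≤ (l : ℕ) := Nat.cast_nonneg _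
    obtain ⟨h2, h3⟩ := abs_lt.mp hy
    split_ifs with h
    · exact ⟨fun _ => h, fun _ => by linarith⟩
    · exact ⟨fun h' => by linarith, fun h' => absurd h' h⟩
  rw [h1]
  have h2 : {l : Fin D | (l : ℕ) < i} = ((univ.filter (fun l : Fin D => (l : ℕ) < i) : Finset _) : Set _) := by
    ext l; simp
  rw [h2, Set.ncard_coe_finset]
  have h3 : (univ.filter (fun l : Fin D => (l : ℕ) < i)).card =
      ((range i).card) := by
    apply card_bij (fun (l : Fin D) _ => (l : ℕ))
    · intro l hl
      exact mem_range.mpr (mem_filter.mp hl).2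
    · intro l _ l' _ h
      exact Fin.ext h
    · intro b hb
      have := mem_range.mp hb
      exact ⟨⟨b, by omega⟩, mem_filter.mpr ⟨mem_univ _, this⟩, rfl⟩
  rw [h3, card_range]

theorem no_meet (hM : Big a B M) {u v : Fin n} {p q : ℝ} (hpq : p ≤ q)
    (h : (ht a B u p ≤ ht a B v p ∧ ht a B v q < ht a B u q) ∨
      (ht a B v p < ht a B u p ∧ ht a B u q ≤ ht a B v q))
    (hh : ∀ y, p ≤ y → y ≤ q → M ≤ |ht a B u y|) : False := by
  have hne : a u ≠ a v := by
    intro he
    unfold ht at h
    rw [he] at h
    rcases h with ⟨h1, h2⟩ | ⟨h1, h2⟩ <;> linarith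
  have hc : Continuous (fun y => ht a B u y - ht a B v y) := by
    unfold ht
    fun_prop
  have hex : ∃ y, p ≤ y ∧ y ≤ q ∧ ht a B u y = ht a B v y := by
    rcases h with ⟨h1, h2⟩ | ⟨h1, h2⟩
    · obtain ⟨y, hy, hy0⟩ := intermediate_value_Icc hpq hc.continuousOn
        (show (0 : ℝ) ∈ Set.Icc _ _ from ⟨by linarith, by linarith⟩)
      exact ⟨y, hy.1, hy.2, by simp only at hy0; linarith⟩
    · obtain ⟨y, hy, hy0⟩ := intermediate_value_Icc' hpq hc.continuousOn
        (show (0 : ℝ) ∈ Set.Icc _ _ from ⟨by linarith, by linarith⟩)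
      exact ⟨y, hy.1, hy.2, by simp only at hy0; linarith⟩
  obtain ⟨y, h1, h2, h3⟩ := hex
  have := big_common hM hne h3
  have := hh y h1 h2
  linarith

theorem ncard_lt_of {S T' : Set (Fin n)} (h : S ⊆ T') {x : Fin n} (hx : x ∈ T') (hx' : x ∉ S) :
    S.ncard < T'.ncard :=
  Set.ncard_lt_ncard (Set.ssubset_iff_subset_ne.mpr ⟨h, fun he => hx' (he ▸ hx)⟩) (Set.toFinite _)

/-- a new line meets at most two old lines on a given level -/
theorem two_per_line (hS : Simple a B) (hM : Big a B M) (h : Fin D) (k : ℕ) :
    {l : Fin n | a l ≠ 0 ∧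
      {l' | ht (eA D a) (eB D B M i) l' (cr (eA D a) (eB D B M i) (Fin.castAdd D l) (Fin.natAdd n h)) <
        ht (eA D a) (eB D B M i) (Fin.castAdd D l)
          (cr (eA D a) (eB D B M i) (Fin.castAdd D l) (Fin.natAdd n h))}.ncard = k}.ncard ≤ 2 := by
  classical
  set H := newB D M i h with hH
  set xx : Fin n → ℝ := fun l => (H - B l) / a l with hxx
  have hcr : ∀ l : Fin n, cr (eA D a) (eB D B M i) (Fin.castAdd D l) (Fin.natAdd n h) = xx l := by
    intro l
    unfold cr eA eB
    simp only [Fin.append_left, Fin.append_right, sub_zero]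
    rfl
  have hht : ∀ l : Fin n, a l ≠ 0 → ht a B l (xx l) = H := by
    intro l hl
    unfold ht
    rw [hxx]
    simp only
    rw [mul_div_cancel₀ _ hl]
    ring
  have hMH : M ≤ |H| := newB_abs hM.1 i h
  -- the number of old lines below at the crossing
  have hcount : ∀ l : Fin n, a l ≠ 0 →
      {l' | ht (eA D a) (eB D B M i) l' (cr (eA D a) (eB D B M i) (Fin.castAdd D l) (Fin.natAdd n h)) <
        ht (eA D a) (eB D B M i) (Fin.castAdd D l)
          (cr (eA D a) (eB D B M i) (Fin.castAdd D l) (Fin.natAdd n h))}.ncard =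
      {l' : Fin n | ht a B l' (xx l) < H}.ncard + {l' : Fin D | newB D M i l' < H}.ncard := by
    intro l hl
    rw [low_ncard, hcr, ht_old, hht l hl]
  have hmeet : ∀ l l' : Fin n, a l ≠ a l' → ∀ x, ht a B l x = ht a B l' x → |ht a B l x| < M :=
    fun l l' hne x hx => big_common hM hne hx
  -- same sign: strictly monotone
  have hmono : ∀ l l' : Fin n, l ≠ l' → 0 < a l * a l' →
      {l₂ : Fin n | ht a B l₂ (xx l) < H}.ncard ≠ {l₂ : Fin n | ht a B l₂ (xx l') < H}.ncard := by
    have main : ∀ l l' : Fin n, 0 < a l * a l' → xx l < xx l' →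
        {l₂ : Fin n | ht a B l₂ (xx l) < H}.ncard ≠ {l₂ : Fin n | ht a B l₂ (xx l') < H}.ncard := by
      intro l l' hs hlt
      have hl0 : a l ≠ 0 := by rintro h0; rw [h0, zero_mul] at hs; exact lt_irrefl _ hs
      have hl0' : a l' ≠ 0 := by rintro h0; rw [h0, mul_zero] at hs; exact lt_irrefl _ hs
      have e1 := hht l hl0
      have e2 := hht l' hl0'
      have g1 : ∀ y, ht a B l y = H + a l * (y - xx l) := by
        intro y
        rw [← e1]; unfold ht; ring
      have g2 : ∀ y, ht a B l' y = H + a l' * (y - xx l') := by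
        intro y
        rw [← e2]; unfold ht; ring
      rcases pos_and_pos_or_neg_and_neg_of_mul_pos hs with ⟨p1, p2⟩ | ⟨p1, p2⟩
      · -- positive slopes
        apply ne_of_gt
        refine ncard_lt_of (x := l') ?_ ?_ ?_
        · intro m hm
          simp only [Set.mem_ofPred_eq] at hm ⊢
          by_contra hcon
          push Not at hcon
          rcases le_abs.mp hMH with hH' | hH'
          · refine no_meet hM (u := l) (v := m) hlt.le (Or.inl ⟨by rw [e1]; exact hcon, ?_⟩) ?_
            · rw [g1]
              have : 0 < a l * (xx l' - xx l) := mul_pos p1 (by linarith)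
              linarith
            · intro y hy1 hy2
              rw [g1]
              have : 0 ≤ a l * (y - xx l) := mul_nonneg p1.le (by linarith)
              exact le_trans (by linarith) (le_abs_self _)
          · refine no_meet hM (u := l') (v := m) hlt.le (Or.inl ⟨?_, by rw [e2]; exact hm⟩) ?_
            · rw [g2]
              have : a l' * (xx l - xx l') < 0 := mul_neg_of_pos_of_neg p2 (by linarith)
              linarith
            · intro y hy1 hy2
              rw [g2]
              have : a l' * (y - xx l') ≤ 0 := mul_nonpos_of_nonneg_of_nonpos p2.le (by linarith)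
              exact le_trans (by linarith) (neg_le_abs _)
        · simp only [Set.mem_ofPred_eq]
          rw [g2]
          have : a l' * (xx l - xx l') < 0 := mul_neg_of_pos_of_neg p2 (by linarith)
          linarith
        · simp only [Set.mem_ofPred_eq]
          rw [e2]
          exact lt_irrefl _
      · -- negative slopes
        apply ne_of_lt
        refine ncard_lt_of (x := l) ?_ ?_ ?_
        · intro m hm
          simp only [Set.mem_ofPred_eq] at hm ⊢
          by_contra hcon
          push Not at hcon
          rcases le_abs.mp hMH with hH' | hH'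
          · refine no_meet hM (u := l') (v := m) hlt.le (Or.inr ⟨?_, by rw [e2]; exact hcon⟩) ?_
            · rw [g2]
              have : 0 < a l' * (xx l - xx l') := mul_pos_of_neg_of_neg p2 (by linarith)
              linarith
            · intro y hy1 hy2
              rw [g2]
              have : 0 ≤ a l' * (y - xx l') := mul_nonneg_of_nonpos_of_nonpos p2.le (by linarith)
              exact le_trans (by linarith) (le_abs_self _)
          · refine no_meet hM (u := l) (v := m) hlt.le (Or.inr ⟨by rw [e1]; exact hm, ?_⟩) ?_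
            · rw [g1]
              have : a l * (xx l' - xx l) < 0 := mul_neg_of_neg_of_pos p1 (by linarith)
              linarith
            · intro y hy1 hy2
              rw [g1]
              have : a l * (y - xx l) ≤ 0 := mul_nonpos_of_nonpos_of_nonneg p1.le (by linarith)
              exact le_trans (by linarith) (neg_le_abs _)
        · simp only [Set.mem_ofPred_eq]
          rw [g1]
          have : a l * (xx l' - xx l) < 0 := mul_neg_of_neg_of_pos p1 (by linarith)
          linarith
        · simp only [Set.mem_ofPred_eq]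
          rw [e1]
          exact lt_irrefl _
    intro l l' hne hs
    have hl0 : a l ≠ 0 := by rintro h0; rw [h0, zero_mul] at hs; exact lt_irrefl _ hs
    have hl0' : a l' ≠ 0 := by rintro h0; rw [h0, mul_zero] at hs; exact lt_irrefl _ hs
    have hxne : xx l ≠ xx l' := by
      intro he
      have e1 := hht l hl0
      have e2 := hht l' hl0'
      rw [← he] at e2
      by_cases hsl : a l = a l'
      · apply hS.1 l l' hne hsl
        unfold ht at e1 e2
        rw [hsl] at e1
        linarith
      · have := hmeet l l' hsl (xx l) (e1.trans e2.symm)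
        rw [e1] at this
        linarith
    rcases lt_or_gt_of_ne hxne with h | h
    · exact main l l' hs h
    · exact (main l' l (by rw [mul_comm]; exact hs) h).symm
  have hsub : {l : Fin n | a l ≠ 0 ∧
      {l' | ht (eA D a) (eB D B M i) l' (cr (eA D a) (eB D B M i) (Fin.castAdd D l) (Fin.natAdd n h)) <
        ht (eA D a) (eB D B M i) (Fin.castAdd D l)
          (cr (eA D a) (eB D B M i) (Fin.castAdd D l) (Fin.natAdd n h))}.ncard = k} ⊆
      {l : Fin n | 0 < a l ∧ {l' : Fin n | ht a B l' (xx l) < H}.ncard +
        {l' : Fin D | newB D M i l' < H}.ncard = k} ∪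
      {l : Fin n | a l < 0 ∧ {l' : Fin n | ht a B l' (xx l) < H}.ncard +
        {l' : Fin D | newB D M i l' < H}.ncard = k} := by
    rintro l ⟨hl, hk⟩
    rw [hcount l hl] at hk
    rcases lt_or_gt_of_ne hl with h | h
    · exact Or.inr ⟨h, hk⟩
    · exact Or.inl ⟨h, hk⟩
  refine (Set.ncard_le_ncard hsub (Set.toFinite _)).trans ((Set.ncard_union_le _ _).trans ?_)
  have h1 : {l : Fin n | 0 < a l ∧ {l' : Fin n | ht a B l' (xx l) < H}.ncard +
        {l' : Fin D | newB D M i l' < H}.ncard = k}.ncard ≤ 1 := by
    rw [Set.ncard_le_one (Set.toFinite _)]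
    rintro l ⟨hl, hk⟩ l' ⟨hl', hk'⟩
    by_contra hne
    exact hmono l l' hne (mul_pos hl hl') (by omega)
  have h2 : {l : Fin n | a l < 0 ∧ {l' : Fin n | ht a B l' (xx l) < H}.ncard +
        {l' : Fin D | newB D M i l' < H}.ncard = k}.ncard ≤ 1 := by
    rw [Set.ncard_le_one (Set.toFinite _)]
    rintro l ⟨hl, hk⟩ l' ⟨hl', hk'⟩
    by_contra hne
    exact hmono l l' hne (mul_pos_of_neg_of_neg hl hl') (by omega)
  omega

/-- crossings of the extended arrangement -/
theorem cross_ext (hS : Simple a B) (hM : Big a B M) (hi : i ≤ D) (k : ℕ) :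
    (crossings (eA D a) (eB D B M i) k).ncard ≤
      (if i ≤ k then (crossings a B (k - i)).ncard else 0) + 2 * D := by
  classical
  set Sh : Fin D → Set (Fin n) := fun h => {l : Fin n | a l ≠ 0 ∧
      {l' | ht (eA D a) (eB D B M i) l' (cr (eA D a) (eB D B M i) (Fin.castAdd D l) (Fin.natAdd n h)) <
        ht (eA D a) (eB D B M i) (Fin.castAdd D l)
          (cr (eA D a) (eB D B M i) (Fin.castAdd D l) (Fin.natAdd n h))}.ncard = k} with hSh
  set Old : Set (Fin (n + D) × Fin (n + D)) := if i ≤ k then
    (fun q : Fin n × Fin n => (Fin.castAdd D q.1, Fin.castAdd D q.2)) '' crossings a B (k - i)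
    else ∅ with hOld
  set New : Finset (Fin (n + D) × Fin (n + D)) := (univ : Finset (Fin D)).biUnion (fun h =>
    (Set.toFinite (Sh h)).toFinset.image (fun l => (Fin.castAdd D l, Fin.natAdd n h))) with hNew
  have hsub : crossings (eA D a) (eB D B M i) k ⊆ Old ∪ ↑New := by
    rintro ⟨p, q⟩ ⟨h1, h2, h3⟩
    simp only at h1 h2 h3
    induction p using Fin.addCases with
    | left p =>
      induction q using Fin.addCases with
      | left q =>
        left
        have hpq : p < q := by
          rw [Fin.lt_def] at h1 ⊢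
          simpa using h1
        have hs : a p ≠ a q := by
          unfold eA at h2
          rw [Fin.append_left, Fin.append_left] at h2
          exact h2
        rw [low_ncard, cr_old, ht_old, new_below hM.1 hi (hM.2.2 p q hs)] at h3
        have hik : i ≤ k := by omega
        rw [hOld, if_pos hik]
        exact ⟨(p, q), ⟨hpq, hs, by simp only; omega⟩, rfl⟩
      | right q =>
        right
        rw [mem_coe, hNew, mem_biUnion]
        refine ⟨q, mem_univ _, ?_⟩
        rw [mem_image]
        refine ⟨p, ?_, rfl⟩
        rw [Set.Finite.mem_toFinset]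
        refine ⟨?_, h3⟩
        unfold eA at h2
        rw [Fin.append_left, Fin.append_right] at h2
        exact h2
    | right p =>
      induction q using Fin.addCases with
      | left q =>
        exfalso
        rw [Fin.lt_def] at h1
        simp only [Fin.val_natAdd, Fin.val_castAdd] at h1
        have := q.2
        omega
      | right q =>
        exfalso
        unfold eA at h2
        rw [Fin.append_right, Fin.append_right] at h2
        exact h2 rfl
  have hOc : Old.ncard ≤ (if i ≤ k then (crossings a B (k - i)).ncard else 0) := by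
    rw [hOld]
    split_ifs
    · exact Set.ncard_image_le (Set.toFinite _)
    · simp
  have hNc : (New : Set (Fin (n + D) × Fin (n + D))).ncard ≤ 2 * D := by
    rw [Set.ncard_coe_finset, hNew]
    have := card_biUnion_le_card_mul (univ : Finset (Fin D)) (fun h =>
      (Set.toFinite (Sh h)).toFinset.image (fun l => (Fin.castAdd D l, Fin.natAdd n h))) 2 (by
        intro h _
        refine card_image_le.trans ?_
        rw [← Set.ncard_eq_toFinset_card]
        exact two_per_line hS hM h k)
    rw [card_univ, Fintype.card_fin] at this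
    omega
  calc (crossings (eA D a) (eB D B M i) k).ncard ≤ (Old ∪ ↑New).ncard :=
        Set.ncard_le_ncard hsub (Set.toFinite _)
    _ ≤ Old.ncard + (New : Set (Fin (n + D) × Fin (n + D))).ncard := Set.ncard_union_le _ _
    _ ≤ _ := Nat.add_le_add hOc hNc

end ext

/-- the pairs whose level lies in a window of length `D + 1` below `k` -/
theorem sum_win {P : Fin n → ℝ × ℝ} (hP : GP P) (D k : ℕ) :
    ((∑ i ∈ range (D + 1), (if i ≤ k then (EW P {k - i}).card else 0) : ℕ) : ℝ) ≤
      18 * n * ((n : ℝ) ^ (1 / 3 : ℝ) * (((D : ℝ) + 1) ^ (1 / 3 : ℝ)) ^ 2) := by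
  classical
  set W : Finset ℕ := (Icc (k - D) k).filter (· < n) with hW
  have h1 : ∑ i ∈ range (D + 1), (if i ≤ k then (EW P {k - i}).card else 0) ≤ (EW P W).card := by
    have e1 : ∑ i ∈ range (D + 1), (if i ≤ k then (EW P {k - i}).card else 0) =
        ∑ t ∈ Icc (k - D) k, (EW P {t}).card := by
      rw [← sum_filter]
      apply sum_bij (fun i _ => k - i)
      · intro i hi
        rw [mem_filter, mem_range] at hi
        rw [mem_Icc]
        omega
      · intro i hi i' hi' h
        rw [mem_filter, mem_range] at hi hi'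
        omega
      · intro t ht
        rw [mem_Icc] at ht
        exact ⟨k - t, by rw [mem_filter, mem_range]; omega, by omega⟩
      · intro i _
        rfl
    have e2 : ((∑ t ∈ Icc (k - D) k, (EW P {t}).card : ℕ) : ℝ) = ((EW P (Icc (k - D) k)).card : ℝ) := by
      rw [← Pool.Agent.Y344.KD.sum_ee]
      unfold Pool.Agent.Y344.KD.ee
      push_cast
      rfl
    have e3 : EW P (Icc (k - D) k) ⊆ EW P W := by
      intro q hq
      unfold EW at hq ⊢
      rw [mem_filter] at hq ⊢
      refine ⟨hq.1, ?_⟩
      rw [hW, mem_filter]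
      have := lev_fl hP (mem_T.mp hq.1)
      exact ⟨hq.2, by omega⟩
    rw [e1]
    have e4 : ∑ t ∈ Icc (k - D) k, (EW P {t}).card = (EW P (Icc (k - D) k)).card := by
      exact_mod_cast e2
    rw [e4]
    exact card_le_card e3
  have h2 : ((∑ i ∈ range (D + 1), (if i ≤ k then (EW P {k - i}).card else 0) : ℕ) : ℝ) ≤
      ((EW P W).card : ℝ) := by exact_mod_cast h1
  refine h2.trans ?_
  rcases Nat.eq_zero_or_pos n with hn | hn
  · have : (EW P W).card = 0 := by
      rw [card_eq_zero]
      ext q
      subst hn
      exact Fin.elim0 q.1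
    rw [this, Nat.cast_zero]
    positivity
  have h3 := window hP W (K := n - 1) (fun t ht => by
    have := (mem_filter.mp ht).2
    omega)
  refine h3.trans ?_
  have e1 : (((n - 1 : ℕ) : ℝ) + 1) = n := by
    have : n - 1 + 1 = n := Nat.sub_add_cancel hn
    exact_mod_cast this
  rw [e1]
  set y := ((D : ℝ) + 1) ^ (1 / 3 : ℝ) with hy
  have hy0 : 0 ≤ y := by positivity
  have hy3 : y ^ 3 = (D : ℝ) + 1 := by
    rw [hy, ← Real.rpow_natCast, ← Real.rpow_mul (by positivity)]
    norm_num
  have e2 : (W.card : ℝ) ^ (2 / 3 : ℝ) ≤ y ^ 2 := by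
    rw [← cube_root2 hy0]
    apply Real.rpow_le_rpow (Nat.cast_nonneg _) _ (by norm_num)
    rw [hy3]
    have h5 : W.card ≤ D + 1 := by
      refine (card_filter_le _ _).trans ?_
      rw [Nat.card_Icc]
      omega
    exact_mod_cast h5
  gcongr

/-- **adding few lines** -/
theorem add_lines {a B : Fin n → ℝ} (hS : Simple a B) (D : ℕ) (K : Finset ℕ)
    (hK : ∀ k ∈ K, k < n + D) :
    ∃ a' B' : Fin D → ℝ, Simple (Fin.append a a') (Fin.append B B') ∧
      (∀ k ∈ K, psi (Fin.append a a') (Fin.append B B') k ≠ ⊤) ∧
      ∑ k ∈ K, ((psi (Fin.append a a') (Fin.append B B') k).toNat : ℝ) ≤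
        #K * (36 * n * ((n : ℝ) / ((D : ℝ) + 1)) ^ (1 / 3 : ℝ) + 4 * D) := by
  classical
  obtain ⟨P, hGP, hP⟩ := exists_GP hS
  obtain ⟨M, hM⟩ := exists_big a B
  have hpsi : ∀ i ≤ D, ∀ k ∈ K, psi (eA D a) (eB D B M i) k ≤
      (((if i ≤ k then (EW P {k - i}).card else 0) + 2 * D +
        ((if i ≤ k - 1 then (EW P {k - 1 - i}).card else 0) + 2 * D) : ℕ) : ℕ∞) := by
    intro i hi k hk
    refine (psi_le (simple_ext hS hM) (hK k hk)).trans ?_
    apply Nat.cast_le.mpr
    have hc : ∀ k', (crossings (eA D a) (eB D B M i) k').ncard ≤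
        (if i ≤ k' then (EW P {k' - i}).card else 0) + 2 * D := by
      intro k'
      refine (cross_ext hS hM hi k').trans (Nat.add_le_add_right ?_ _)
      split_ifs
      · exact cross_le_EW hP _
      · exact le_rfl
    apply Nat.add_le_add (hc k)
    split_ifs with h h'
    · exact Nat.zero_le _
    · exact Nat.zero_le _
    · have := hc (k - 1)
      rwa [if_pos (by assumption)] at this
    · have := hc (k - 1)
      rwa [if_neg (by assumption)] at this
  set V : ℝ := 18 * n * ((n : ℝ) ^ (1 / 3 : ℝ) * (((D : ℝ) + 1) ^ (1 / 3 : ℝ)) ^ 2) with hV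
  have hsum : ∑ i ∈ range (D + 1), ∑ k ∈ K, ((psi (eA D a) (eB D B M i) k).toNat : ℝ) ≤
      ∑ i ∈ range (D + 1), #K * (2 * V / ((D : ℝ) + 1) + 4 * D) := by
    rw [sum_comm, sum_const, card_range, nsmul_eq_mul]
    have h1 : ∀ k ∈ K, ∑ i ∈ range (D + 1), ((psi (eA D a) (eB D B M i) k).toNat : ℝ) ≤
        2 * V + ((D : ℝ) + 1) * (4 * D) := by
      intro k hk
      have h2 : ∑ i ∈ range (D + 1), ((psi (eA D a) (eB D B M i) k).toNat : ℝ) ≤
          ∑ i ∈ range (D + 1), (((if i ≤ k then (EW P {k - i}).card else 0) + 2 * D +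
        ((if i ≤ k - 1 then (EW P {k - 1 - i}).card else 0) + 2 * D) : ℕ) : ℝ) := by
        apply sum_le_sum
        intro i hi
        have := (toNat_le (hpsi i (by have := mem_range.mp hi; omega) k hk)).2
        exact_mod_cast this
      have h3 := sum_win hGP D k
      have h4 := sum_win hGP D (k - 1)
      have h5 : ∑ i ∈ range (D + 1), (((if i ≤ k then (EW P {k - i}).card else 0) + 2 * D +
        ((if i ≤ k - 1 then (EW P {k - 1 - i}).card else 0) + 2 * D) : ℕ) : ℝ) =
        ((∑ i ∈ range (D + 1), (if i ≤ k then (EW P {k - i}).card else 0) : ℕ) : ℝ) +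
        ((∑ i ∈ range (D + 1), (if i ≤ k - 1 then (EW P {k - 1 - i}).card else 0) : ℕ) : ℝ) +
        ((D : ℝ) + 1) * (4 * D) := by
        rw [Nat.cast_sum, Nat.cast_sum, ← sum_add_distrib]
        have : ((D : ℝ) + 1) * (4 * D) = ∑ i ∈ range (D + 1), (4 * (D : ℝ)) := by
          rw [sum_const, card_range, nsmul_eq_mul]
          push_cast
          ring
        rw [this, ← sum_add_distrib]
        apply sum_congr rfl
        intro i _
        push_cast
        ring
      rw [h5] at h2
      rw [← hV] at h3 h4
      linarith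
    calc ∑ k ∈ K, ∑ i ∈ range (D + 1), ((psi (eA D a) (eB D B M i) k).toNat : ℝ) ≤
        ∑ k ∈ K, (2 * V + ((D : ℝ) + 1) * (4 * D)) := sum_le_sum h1
      _ = #K * (2 * V + ((D : ℝ) + 1) * (4 * D)) := by rw [sum_const, nsmul_eq_mul]
      _ = ((D + 1 : ℕ) : ℝ) * (#K * (2 * V / ((D : ℝ) + 1) + 4 * D)) := by
          push_cast
          field_simp
  obtain ⟨i, hi, h2⟩ := exists_le_of_sum_le ⟨0, mem_range.mpr (by omega)⟩ hsum
  have hi' : i ≤ D := by have := mem_range.mp hi; omega
  refine ⟨fun _ => 0, newB D M i, simple_ext hS hM, fun k hk => (toNat_le (hpsi i hi' k hk)).1, ?_⟩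
  refine h2.trans (le_of_eq ?_)
  congr 2
  rw [hV]
  have hn0 : (0 : ℝ) ≤ n := Nat.cast_nonneg n
  have hD1 : (0 : ℝ) < (D : ℝ) + 1 := by positivity
  rw [Real.div_rpow hn0 hD1.le]
  set y := ((D : ℝ) + 1) ^ (1 / 3 : ℝ) with hy
  have hy0 : 0 < y := by positivity
  have hy3 : (D : ℝ) + 1 = y ^ 3 := by
    rw [hy, ← Real.rpow_natCast, ← Real.rpow_mul (by positivity)]
    norm_num
  rw [hy3]
  field_simp
  ring

end Q119.Lev
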