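import Mathlib

/-!
# Local bounds for the number of marked elements in a random set, for all parameters

`F N k l t = C(t, k) C(N - t, l)`; the sum over `t ≤ N` is `C(N + 1, k + l + 1)`, the two further
moments are explicit, and log-concavity bounds every term by `2 A / σ`.
-/

set_option autoImplicit false

namespace Q119.Lev

open Finset

/-- `C(t, k) C(N - t, l)` -/
def F (N k l t : ℕ) : ℕ := t.choose k * (N - t).choose l

theorem choose_lc (a k i j : ℕ) :
    (a + i + j).choose k * a.choose k ≤ (a + i).choose k * (a + j).choose k := by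
  induction k with
  | zero => simp
  | succ k ih =>
    rcases Nat.lt_or_ge a (k + 1) with h | h
    · rw [Nat.choose_eq_zero_of_lt h, mul_zero]
      exact Nat.zero_le _
    · obtain ⟨c, rfl⟩ : ∃ c, a = k + 1 + c := ⟨a - (k + 1), by omega⟩
      have e : ∀ x : ℕ, (x).choose (k + 1) * (k + 1) = x.choose k * (x - k) :=
        fun x => Nat.choose_succ_right_eq x k
      have e1 := e (k + 1 + c + i + j)
      have e2 := e (k + 1 + c)
      have e3 := e (k + 1 + c + i)
      have e4 := e (k + 1 + c + j)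
      have s1 : k + 1 + c + i + j - k = c + 1 + i + j := by omega
      have s2 : k + 1 + c - k = c + 1 := by omega
      have s3 : k + 1 + c + i - k = c + 1 + i := by omega
      have s4 : k + 1 + c + j - k = c + 1 + j := by omega
      rw [s1] at e1
      rw [s2] at e2
      rw [s3] at e3
      rw [s4] at e4
      have key : ((k + 1 + c + i + j).choose (k + 1) * (k + 1 + c).choose (k + 1)) * ((k + 1) * (k + 1)) ≤
          ((k + 1 + c + i).choose (k + 1) * (k + 1 + c + j).choose (k + 1)) * ((k + 1) * (k + 1)) := by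
        calc ((k + 1 + c + i + j).choose (k + 1) * (k + 1 + c).choose (k + 1)) * ((k + 1) * (k + 1)) =
            ((k + 1 + c + i + j).choose (k + 1) * (k + 1)) * ((k + 1 + c).choose (k + 1) * (k + 1)) := by
              ring
          _ = ((k + 1 + c + i + j).choose k * (k + 1 + c).choose k) * ((c + 1 + i + j) * (c + 1)) := by
              rw [e1, e2]; ring
          _ ≤ ((k + 1 + c + i).choose k * (k + 1 + c + j).choose k) * ((c + 1 + i) * (c + 1 + j)) := by
              apply Nat.mul_le_mul ih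
              nlinarith [Nat.zero_le (i * j)]
          _ = ((k + 1 + c + i).choose (k + 1) * (k + 1)) * ((k + 1 + c + j).choose (k + 1) * (k + 1)) := by
              rw [e3, e4]; ring
          _ = _ := by ring
      exact Nat.le_of_mul_le_mul_right key (by positivity)

theorem F_lc {N k l a i j : ℕ} (h : a + i + j ≤ N) :
    F N k l (a + i + j) * F N k l a ≤ F N k l (a + i) * F N k l (a + j) := by
  unfold F
  have h1 := choose_lc a k i j
  obtain ⟨b, hb⟩ : ∃ b, N = a + i + j + b := ⟨N - (a + i + j), by omega⟩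
  have h2 := choose_lc b l i j
  have s1 : N - (a + i + j) = b := by omega
  have s2 : N - a = b + i + j := by omega
  have s3 : N - (a + i) = b + j := by omega
  have s4 : N - (a + j) = b + i := by omega
  rw [s1, s2, s3, s4]
  calc (a + i + j).choose k * b.choose l * (a.choose k * (b + i + j).choose l) =
      ((a + i + j).choose k * a.choose k) * ((b + i + j).choose l * b.choose l) := by ring
    _ ≤ ((a + i).choose k * (a + j).choose k) * ((b + i).choose l * (b + j).choose l) :=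
        Nat.mul_le_mul h1 h2
    _ = _ := by ring

/-- sum over a triangle -/
theorem tri_sum {g h : ℕ → ℝ} (hg : ∀ i, 0 ≤ g i) (hh : ∀ i, 0 ≤ h i) (L : ℕ) :
    ∑ u ∈ range L, ∑ k ∈ range (u + 1), g k * h (u - k) ≤
      (∑ i ∈ range L, g i) * ∑ i ∈ range L, h i := by
  rw [sum_range_diag_flip L (fun a b => g a * h b), sum_mul]
  apply sum_le_sum
  intro m _
  rw [← mul_sum]
  apply mul_le_mul_of_nonneg_left _ (hg m)
  exact sum_le_sum_of_subset_of_nonneg (range_subset_range.mpr (Nat.sub_le _ _)) (fun i _ _ => hh i)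

theorem sum_lin (u : ℕ) : ∑ k ∈ range (u + 1), (((u - k : ℕ) : ℝ) + 1) =
    ((u : ℝ) + 1) * ((u : ℝ) + 2) / 2 := by
  have h := sum_range_reflect (fun j : ℕ => ((j : ℝ) + 1)) (u + 1)
  have h2 : ∀ v : ℕ, ∑ j ∈ range (v + 1), ((j : ℝ) + 1) = ((v : ℝ) + 1) * ((v : ℝ) + 2) / 2 := by
    intro v
    induction v with
    | zero => simp
    | succ v ih =>
      rw [sum_range_succ, ih]
      push_cast
      ring
  rw [h2] at h
  rw [← h]
  apply sum_congr rfl
  intro k _
  have e : u + 1 - 1 - k = u - k := by omega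
  rw [e]

/-- third moment bound for submultiplicative sequences -/
theorem third {g : ℕ → ℝ} (hg : ∀ i, 0 ≤ g i) {L : ℕ}
    (h : ∀ i j, i + j < L → g (i + j) * g 0 ≤ g i * g j) :
    (g 0) ^ 2 * ∑ u ∈ range L, ((u : ℝ) + 1) * ((u : ℝ) + 2) / 2 * g u ≤
      (∑ i ∈ range L, g i) ^ 3 := by
  set S := ∑ i ∈ range L, g i with hS
  have hS0 : 0 ≤ S := sum_nonneg (fun i _ => hg i)
  have h1 : g 0 * ∑ u ∈ range L, ((u : ℝ) + 1) * g u ≤ S ^ 2 := by
    calc g 0 * ∑ u ∈ range L, ((u : ℝ) + 1) * g u =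
        ∑ u ∈ range L, ∑ k ∈ range (u + 1), g u * g 0 := by
          rw [mul_sum]
          apply sum_congr rfl
          intro u _
          rw [sum_const, card_range, nsmul_eq_mul]
          push_cast
          ring
      _ ≤ ∑ u ∈ range L, ∑ k ∈ range (u + 1), g k * g (u - k) := by
          apply sum_le_sum
          intro u hu
          apply sum_le_sum
          intro k hk
          have hk' := mem_range.mp hk
          have hu' := mem_range.mp hu
          have := h k (u - k) (by omega)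
          have e : k + (u - k) = u := by omega
          rwa [e] at this
      _ ≤ S * S := tri_sum hg hg L
      _ = S ^ 2 := by ring
  have h2 : g 0 * ∑ u ∈ range L, ((u : ℝ) + 1) * ((u : ℝ) + 2) / 2 * g u ≤
      S * ∑ u ∈ range L, ((u : ℝ) + 1) * g u := by
    calc g 0 * ∑ u ∈ range L, ((u : ℝ) + 1) * ((u : ℝ) + 2) / 2 * g u =
        ∑ u ∈ range L, ∑ k ∈ range (u + 1), g u * g 0 * (((u - k : ℕ) : ℝ) + 1) := by
          rw [mul_sum]
          apply sum_congr rfl
          intro u _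
          rw [← mul_sum, sum_lin]
          ring
      _ ≤ ∑ u ∈ range L, ∑ k ∈ range (u + 1), g k * ((((u - k : ℕ) : ℝ) + 1) * g (u - k)) := by
          apply sum_le_sum
          intro u hu
          apply sum_le_sum
          intro k hk
          have hk' := mem_range.mp hk
          have hu' := mem_range.mp hu
          have := h k (u - k) (by omega)
          have e : k + (u - k) = u := by omega
          rw [e] at this
          have h0 : (0 : ℝ) ≤ ((u - k : ℕ) : ℝ) + 1 := by positivity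
          nlinarith
      _ ≤ S * ∑ u ∈ range L, ((u : ℝ) + 1) * g u :=
          tri_sum hg (h := fun u => ((u : ℝ) + 1) * g u)
            (fun i => mul_nonneg (by positivity) (hg i)) L
  calc (g 0) ^ 2 * ∑ u ∈ range L, ((u : ℝ) + 1) * ((u : ℝ) + 2) / 2 * g u =
      g 0 * (g 0 * ∑ u ∈ range L, ((u : ℝ) + 1) * ((u : ℝ) + 2) / 2 * g u) := by ring
    _ ≤ g 0 * (S * ∑ u ∈ range L, ((u : ℝ) + 1) * g u) := mul_le_mul_of_nonneg_left h2 (hg 0)
    _ = S * (g 0 * ∑ u ∈ range L, ((u : ℝ) + 1) * g u) := by ring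
    _ ≤ S * S ^ 2 := mul_le_mul_of_nonneg_left h1 hS0
    _ = S ^ 3 := by ring

theorem third' {g : ℕ → ℝ} (hg : ∀ i, 0 ≤ g i) {L : ℕ}
    (h : ∀ i j, i + j < L → g (i + j) * g 0 ≤ g i * g j) {A : ℝ} (hA : ∑ i ∈ range L, g i ≤ A) :
    (g 0) ^ 2 * ∑ u ∈ range L, (u : ℝ) ^ 2 * g u ≤ 2 * A ^ 3 := by
  have h1 := third hg h
  have hS0 : 0 ≤ ∑ i ∈ range L, g i := sum_nonneg (fun i _ => hg i)
  have h2 : (∑ i ∈ range L, g i) ^ 3 ≤ A ^ 3 := pow_le_pow_left₀ hS0 hA 3
  have h3 : ∑ u ∈ range L, (u : ℝ) ^ 2 * g u ≤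
      2 * ∑ u ∈ range L, ((u : ℝ) + 1) * ((u : ℝ) + 2) / 2 * g u := by
    rw [mul_sum]
    apply sum_le_sum
    intro u _
    have hu : (0 : ℝ) ≤ u := Nat.cast_nonneg u
    have := hg u
    have h4 : (u : ℝ) ^ 2 ≤ ((u : ℝ) + 1) * ((u : ℝ) + 2) := by nlinarith
    nlinarith
  have h5 : (0 : ℝ) ≤ (g 0) ^ 2 := sq_nonneg _
  nlinarith

/-- every value of `F` is small compared with the spread -/
theorem spread {N k l τ : ℕ} (hτ : τ ≤ N) :
    ((F N k l τ : ℕ) : ℝ) ^ 2 * ∑ t ∈ range (N + 1), ((t : ℝ) - τ) ^ 2 * (F N k l t : ℝ) ≤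
      4 * (∑ t ∈ range (N + 1), (F N k l t : ℝ)) ^ 3 := by
  set A := ∑ t ∈ range (N + 1), (F N k l t : ℝ) with hA
  have hsplit : ∀ f : ℕ → ℝ, ∑ t ∈ range (N + 1), f t =
      ∑ j ∈ range τ, f (τ - 1 - j) + ∑ i ∈ range (N + 1 - τ), f (τ + i) := by
    intro f
    rw [sum_range_reflect, ← sum_Ico_eq_sum_range, sum_range_add_sum_Ico _ (by omega)]
  have hl : ∀ f : ℕ → ℝ, ∑ j ∈ range τ, f (τ - 1 - j) + f τ = ∑ i ∈ range (τ + 1), f (τ - i) := by
    intro f
    rw [sum_range_succ', Nat.sub_zero]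
    congr 1
    apply sum_congr rfl
    intro j _
    congr 1
    omega
  -- right part
  have hr := third' (g := fun i => (F N k l (τ + i) : ℝ)) (fun i => Nat.cast_nonneg _)
    (L := N + 1 - τ) (A := A) (by
      intro i j hij
      simp only [add_zero]
      have := F_lc (N := N) (k := k) (l := l) (a := τ) (i := i) (j := j) (by omega)
      rw [← add_assoc]
      exact_mod_cast this) (by
      rw [hA, hsplit]
      have : 0 ≤ ∑ j ∈ range τ, (F N k l (τ - 1 - j) : ℝ) := sum_nonneg (fun _ _ => Nat.cast_nonneg _)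
      linarith)
  -- left part
  have hle := third' (g := fun i => if i ≤ τ then (F N k l (τ - i) : ℝ) else 0) (fun i => by
      split_ifs
      · exact Nat.cast_nonneg _
      · exact le_rfl)
    (L := τ + 1) (A := A) (by
      intro i j hij
      simp only [Nat.zero_le, if_true, Nat.sub_zero]
      rw [if_pos (by omega), if_pos (by omega), if_pos (by omega)]
      have := F_lc (N := N) (k := k) (l := l) (a := τ - (i + j)) (i := i) (j := j) (by omega)
      have e1 : τ - (i + j) + i + j = τ := by omega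
      have e2 : τ - (i + j) + i = τ - j := by omega
      have e3 : τ - (i + j) + j = τ - i := by omega
      rw [e1, e2, e3] at this
      have h' : F N k l (τ - (i + j)) * F N k l τ ≤ F N k l (τ - i) * F N k l (τ - j) := by
        calc _ = F N k l τ * F N k l (τ - (i + j)) := mul_comm _ _
          _ ≤ _ := this
          _ = _ := mul_comm _ _
      exact_mod_cast h') (by
      have h1 : ∑ i ∈ range (τ + 1), (if i ≤ τ then (F N k l (τ - i) : ℝ) else 0) =
          ∑ i ∈ range (τ + 1), (F N k l (τ - i) : ℝ) := by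
        apply sum_congr rfl
        intro i hi
        have := mem_range.mp hi
        rw [if_pos (by omega)]
      rw [h1, ← hl (fun t => (F N k l t : ℝ)), hA, hsplit]
      have h2 : (F N k l τ : ℝ) ≤ ∑ i ∈ range (N + 1 - τ), (F N k l (τ + i) : ℝ) := by
        have h3 : N + 1 - τ = (N - τ) + 1 := by omega
        rw [h3, sum_range_succ']
        have : 0 ≤ ∑ i ∈ range (N - τ), (F N k l (τ + (i + 1)) : ℝ) :=
          sum_nonneg (fun _ _ => Nat.cast_nonneg _)
        simp only [add_zero]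
        linarith
      linarith)
  simp only [Nat.zero_le, if_true, Nat.sub_zero, add_zero] at hr hle
  have hV : ∑ t ∈ range (N + 1), ((t : ℝ) - τ) ^ 2 * (F N k l t : ℝ) =
      ∑ i ∈ range (τ + 1), (i : ℝ) ^ 2 * (if i ≤ τ then (F N k l (τ - i) : ℝ) else 0) +
      ∑ i ∈ range (N + 1 - τ), (i : ℝ) ^ 2 * (F N k l (τ + i) : ℝ) := by
    rw [hsplit]
    congr 1
    · have h1 := hl (fun t => ((t : ℝ) - τ) ^ 2 * (F N k l t : ℝ))
      simp only [sub_self, ne_eq, OfNat.ofNat_ne_zero, not_false_eq_true, zero_pow, zero_mul,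
        add_zero] at h1
      rw [h1]
      apply sum_congr rfl
      intro i hi
      have := mem_range.mp hi
      rw [if_pos (by omega), Nat.cast_sub (by omega)]
      ring
    · apply sum_congr rfl
      intro i _
      push_cast
      ring
  rw [hV, mul_add]
  linarith

theorem S0 (k : ℕ) : ∀ l N : ℕ, ∑ t ∈ range (N + 1), F N k l t = (N + 1).choose (k + l + 1) := by
  intro l
  induction l with
  | zero =>
    intro N
    unfold F
    simp only [Nat.choose_zero_right, mul_one, add_zero]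
    induction N with
    | zero =>
      cases k with
      | zero => simp
      | succ k => simp [Nat.choose_eq_zero_of_lt (show 1 < k + 1 + 1 by omega)]
    | succ N ih =>
      rw [sum_range_succ, ih, Nat.choose_succ_succ (N + 1) k, add_comm]
  | succ l ih =>
    intro N
    induction N with
    | zero =>
      unfold F
      simp [Nat.choose_eq_zero_of_lt (show 1 < k + (l + 1) + 1 by omega)]
    | succ N ihN =>
      rw [sum_range_succ]
      have e1 : F (N + 1) k (l + 1) (N + 1) = 0 := by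
        unfold F
        simp
      rw [e1, add_zero]
      have e2 : ∀ t ∈ range (N + 1), F (N + 1) k (l + 1) t = F N k l t + F N k (l + 1) t := by
        intro t ht
        have := mem_range.mp ht
        unfold F
        have h1 : N + 1 - t = (N - t) + 1 := by omega
        rw [h1, Nat.choose_succ_succ, Nat.mul_add]
      rw [sum_congr rfl e2, sum_add_distrib, ih, ihN]
      have h2 : k + (l + 1) + 1 = (k + l + 1) + 1 := by ring
      rw [h2, Nat.choose_succ_succ (N + 1)]

theorem S1 (k l N : ℕ) : ∑ t ∈ range (N + 1), (t + 1) * F N k l t =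
    (k + 1) * (N + 2).choose (k + l + 2) := by
  have h := S0 (k + 1) l (N + 1)
  have e : k + 1 + l + 1 = k + l + 2 := by ring
  rw [e] at h
  rw [← h, sum_range_succ' (fun t => F (N + 1) (k + 1) l t), mul_add, mul_sum]
  have e0 : F (N + 1) (k + 1) l 0 = 0 := by unfold F; simp
  rw [e0, mul_zero, add_zero]
  apply sum_congr rfl
  intro t _
  unfold F
  have h1 : N + 1 - (t + 1) = N - t := by omega
  rw [h1]
  have h2 := Nat.add_one_mul_choose_eq t k
  calc (t + 1) * (t.choose k * (N - t).choose l) = ((t + 1) * t.choose k) * (N - t).choose l := by ring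
    _ = _ := by rw [h2]; ring

theorem S2 (k l N : ℕ) : ∑ t ∈ range (N + 1), (t + 1) * (t + 2) * F N k l t =
    (k + 1) * (k + 2) * (N + 3).choose (k + l + 3) := by
  have h := S1 (k + 1) l (N + 1)
  have e : k + 1 + l + 2 = k + l + 3 := by ring
  rw [e] at h
  have h' : (k + 1) * (k + 2) * (N + 3).choose (k + l + 3) =
      (k + 1) * ((k + 1 + 1) * (N + 1 + 2).choose (k + l + 3)) := by ring
  rw [h', ← h, sum_range_succ' (fun t => (t + 1) * F (N + 1) (k + 1) l t), mul_add, mul_sum]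
  have e0 : F (N + 1) (k + 1) l 0 = 0 := by unfold F; simp
  rw [e0, mul_zero, mul_zero, add_zero]
  apply sum_congr rfl
  intro t _
  unfold F
  have h1 : N + 1 - (t + 1) = N - t := by omega
  rw [h1]
  have h2 := Nat.add_one_mul_choose_eq t k
  calc (t + 1) * (t + 2) * (t.choose k * (N - t).choose l) =
      (t + 2) * ((t + 1) * t.choose k) * (N - t).choose l := by ring
    _ = _ := by rw [h2]; ring

/-- lower bound for the spread -/
theorem spread_ge {N k l τ : ℕ} (_hm : k + l ≤ N) :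
    ((N + 1).choose (k + l + 1) : ℝ) * (((k : ℝ) + 1) * ((l : ℝ) + 1) *
      (((N : ℝ) + 2) - ((k : ℝ) + l + 2)) * ((N : ℝ) + 2)) ≤
    (((k : ℝ) + l + 2) ^ 2 * ((k : ℝ) + l + 3)) *
      ∑ t ∈ range (N + 1), ((t : ℝ) - τ) ^ 2 * (F N k l t : ℝ) := by
  set a : ℝ := ((N + 1).choose (k + l + 1) : ℝ) with ha
  set b : ℝ := ((N + 2).choose (k + l + 2) : ℝ) with hb
  set d : ℝ := ((N + 3).choose (k + l + 3) : ℝ) with hd
  have h1 : b * ((k : ℝ) + l + 2) = ((N : ℝ) + 2) * a := by
    have := Nat.add_one_mul_choose_eq (N + 1) (k + l + 1)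
    have h' : (((N + 1 + 1) * (N + 1).choose (k + l + 1) : ℕ) : ℝ) =
        (((N + 1 + 1).choose (k + l + 1 + 1) * (k + l + 1 + 1) : ℕ) : ℝ) := by rw [this]
    rw [ha, hb]
    push_cast at h'
    have e1 : (N : ℝ) + 1 + 1 = N + 2 := by ring
    have e2 : (k : ℝ) + l + 1 + 1 = k + l + 2 := by ring
    rw [e1, e2] at h'
    exact h'.symm
  have h2 : d * ((k : ℝ) + l + 3) = ((N : ℝ) + 3) * b := by
    have := Nat.add_one_mul_choose_eq (N + 2) (k + l + 2)
    have h' : (((N + 2 + 1) * (N + 2).choose (k + l + 2) : ℕ) : ℝ) =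
        (((N + 2 + 1).choose (k + l + 2 + 1) * (k + l + 2 + 1) : ℕ) : ℝ) := by rw [this]
    rw [hd, hb]
    push_cast at h'
    have e1 : (N : ℝ) + 2 + 1 = N + 3 := by ring
    have e2 : (k : ℝ) + l + 2 + 1 = k + l + 3 := by ring
    rw [e1, e2] at h'
    exact h'.symm
  have s0 : ∑ t ∈ range (N + 1), (F N k l t : ℝ) = a := by
    rw [ha, ← S0 k l N]; push_cast; rfl
  have s1 : ∑ t ∈ range (N + 1), ((t : ℝ) + 1) * (F N k l t : ℝ) = ((k : ℝ) + 1) * b := by
    have := S1 k l N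
    have h' : ((∑ t ∈ range (N + 1), (t + 1) * F N k l t : ℕ) : ℝ) =
      (((k + 1) * (N + 2).choose (k + l + 2) : ℕ) : ℝ) := by rw [this]
    push_cast at h'
    exact h'
  have s2 : ∑ t ∈ range (N + 1), ((t : ℝ) + 1) * ((t : ℝ) + 2) * (F N k l t : ℝ) =
      ((k : ℝ) + 1) * ((k : ℝ) + 2) * d := by
    have := S2 k l N
    have h' : ((∑ t ∈ range (N + 1), (t + 1) * (t + 2) * F N k l t : ℕ) : ℝ) =
      (((k + 1) * (k + 2) * (N + 3).choose (k + l + 3) : ℕ) : ℝ) := by rw [this]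
    push_cast at h'
    exact h'
  have hV : ∑ t ∈ range (N + 1), ((t : ℝ) - τ) ^ 2 * (F N k l t : ℝ) =
      ((k : ℝ) + 1) * ((k : ℝ) + 2) * d - (1 + 2 * ((τ : ℝ) + 1)) * (((k : ℝ) + 1) * b) +
        ((τ : ℝ) + 1) ^ 2 * a := by
    rw [← s0, ← s1, ← s2, mul_sum, mul_sum, ← sum_sub_distrib, ← sum_add_distrib]
    apply sum_congr rfl
    intro t _
    ring
  rw [hV]
  have hm0 : (0 : ℝ) < (k : ℝ) + l + 2 := by positivity
  have hm1 : (0 : ℝ) < (k : ℝ) + l + 3 := by positivity
  have hb' : b = ((N : ℝ) + 2) * a / ((k : ℝ) + l + 2) := by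
    rw [eq_div_iff hm0.ne']; exact h1
  have hd' : d = ((N : ℝ) + 3) * b / ((k : ℝ) + l + 3) := by
    rw [eq_div_iff hm1.ne']; exact h2
  have ha0 : 0 ≤ a := Nat.cast_nonneg _
  have key : (((k : ℝ) + l + 2) ^ 2 * ((k : ℝ) + l + 3)) *
      (((k : ℝ) + 1) * ((k : ℝ) + 2) * d - (1 + 2 * ((τ : ℝ) + 1)) * (((k : ℝ) + 1) * b) +
        ((τ : ℝ) + 1) ^ 2 * a) =
      a * (((k : ℝ) + 1) * ((l : ℝ) + 1) * (((N : ℝ) + 2) - ((k : ℝ) + l + 2)) * ((N : ℝ) + 2)) +
        a * (((k : ℝ) + l + 3) * (((τ : ℝ) + 1) * ((k : ℝ) + l + 2) -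
          ((k : ℝ) + 1) * ((N : ℝ) + 2)) ^ 2) := by
    rw [hd', hb']
    field_simp
    ring
  rw [key]
  have : 0 ≤ a * (((k : ℝ) + l + 3) * (((τ : ℝ) + 1) * ((k : ℝ) + l + 2) -
          ((k : ℝ) + 1) * ((N : ℝ) + 2)) ^ 2) := by positivity
  linarith

/-- **local bound**: with `n = N + 2` and `m = k + l + 2`, `k ≤ l`, every value of `F` is at most
`6 m / √((k + 1) (n - m + 1) n)` times the sum of all values -/
theorem loc {N k l τ : ℕ} (hkl : k ≤ l) (hm : k + l ≤ N) (hτ : τ ≤ N) :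
    (F N k l τ : ℝ) ^ 2 * (((k : ℝ) + 1) * ((N : ℝ) - (k + l) + 1) * ((N : ℝ) + 2)) ≤
      36 * ((k : ℝ) + l + 2) ^ 2 * ((N + 1).choose (k + l + 1) : ℝ) ^ 2 := by
  set a : ℝ := ((N + 1).choose (k + l + 1) : ℝ) with ha
  have ha0 : 0 < a := by
    rw [ha]; exact_mod_cast Nat.choose_pos (by omega)
  have s0 : ∑ t ∈ range (N + 1), (F N k l t : ℝ) = a := by
    rw [ha, ← S0 k l N]; push_cast; rfl
  have hk0 : (0 : ℝ) ≤ k := Nat.cast_nonneg k
  have hkl' : (k : ℝ) ≤ l := by exact_mod_cast hkl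
  have hm' : (k : ℝ) + l ≤ N := by exact_mod_cast hm
  have hF0 : (0 : ℝ) ≤ (F N k l τ : ℝ) := Nat.cast_nonneg _
  have hFa : (F N k l τ : ℝ) ≤ a := by
    rw [← s0]
    exact single_le_sum (f := fun t => (F N k l t : ℝ)) (fun t _ => Nat.cast_nonneg _)
      (mem_range.mpr (by omega))
  set f : ℝ := (F N k l τ : ℝ) with hf
  rcases Nat.eq_or_lt_of_le hm with h | h
  · -- n = m
    have hN : (N : ℝ) = k + l := by exact_mod_cast h.symm
    rw [hN]
    have h1 : f ^ 2 ≤ a ^ 2 := pow_le_pow_left₀ hF0 hFa 2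
    have h2 : ((k : ℝ) + 1) * ((k : ℝ) + l - (k + l) + 1) * ((k : ℝ) + l + 2) ≤
        36 * ((k : ℝ) + l + 2) ^ 2 := by nlinarith
    calc f ^ 2 * (((k : ℝ) + 1) * ((k : ℝ) + l - (k + l) + 1) * ((k : ℝ) + l + 2)) ≤
        a ^ 2 * (36 * ((k : ℝ) + l + 2) ^ 2) := by
          apply mul_le_mul h1 h2 (by
            have : (k : ℝ) + l - (k + l) + 1 = 1 := by ring
            rw [this]
            positivity) (by positivity)
      _ = _ := by ring
  · have hN1 : (k : ℝ) + l + 1 ≤ N := by exact_mod_cast h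
    have h1 := spread (N := N) (k := k) (l := l) hτ
    rw [s0] at h1
    have h2 := spread_ge (N := N) (k := k) (l := l) (τ := τ) hm
    set V := ∑ t ∈ range (N + 1), ((t : ℝ) - τ) ^ 2 * (F N k l t : ℝ) with hV
    rw [← hf] at h1
    rw [← ha] at h2
    -- f² (k+1)(l+1)(n-m) n ≤ 4 a² m² (m+1)
    have h3 : a * (f ^ 2 * (((k : ℝ) + 1) * ((l : ℝ) + 1) *
        (((N : ℝ) + 2) - ((k : ℝ) + l + 2)) * ((N : ℝ) + 2))) ≤
        a * (4 * a ^ 2 * (((k : ℝ) + l + 2) ^ 2 * ((k : ℝ) + l + 3))) := by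
      calc a * (f ^ 2 * (((k : ℝ) + 1) * ((l : ℝ) + 1) *
          (((N : ℝ) + 2) - ((k : ℝ) + l + 2)) * ((N : ℝ) + 2))) =
          f ^ 2 * (a * (((k : ℝ) + 1) * ((l : ℝ) + 1) *
          (((N : ℝ) + 2) - ((k : ℝ) + l + 2)) * ((N : ℝ) + 2))) := by ring
        _ ≤ f ^ 2 * ((((k : ℝ) + l + 2) ^ 2 * ((k : ℝ) + l + 3)) * V) :=
            mul_le_mul_of_nonneg_left h2 (sq_nonneg f)
        _ = (((k : ℝ) + l + 2) ^ 2 * ((k : ℝ) + l + 3)) * (f ^ 2 * V) := by ring
        _ ≤ (((k : ℝ) + l + 2) ^ 2 * ((k : ℝ) + l + 3)) * (4 * a ^ 3) :=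
            mul_le_mul_of_nonneg_left h1 (by positivity)
        _ = _ := by ring
    have h4 := le_of_mul_le_mul_left h3 ha0
    -- compare
    have hl1 : (0 : ℝ) < (l : ℝ) + 1 := by positivity
    have h5 : ((l : ℝ) + 1) * (f ^ 2 * (((k : ℝ) + 1) * ((N : ℝ) - (k + l) + 1) * ((N : ℝ) + 2))) ≤
        ((l : ℝ) + 1) * (36 * ((k : ℝ) + l + 2) ^ 2 * a ^ 2) := by
      have e1 : ((N : ℝ) - (k + l) + 1) ≤ 2 * (((N : ℝ) + 2) - ((k : ℝ) + l + 2)) := by linarith
      have e2 : (k : ℝ) + l + 3 ≤ 4 * ((l : ℝ) + 1) := by linarith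
      calc ((l : ℝ) + 1) * (f ^ 2 * (((k : ℝ) + 1) * ((N : ℝ) - (k + l) + 1) * ((N : ℝ) + 2))) ≤
          ((l : ℝ) + 1) * (f ^ 2 * (((k : ℝ) + 1) * (2 * (((N : ℝ) + 2) - ((k : ℝ) + l + 2))) *
            ((N : ℝ) + 2))) := by gcongr
        _ = 2 * (f ^ 2 * (((k : ℝ) + 1) * ((l : ℝ) + 1) *
            (((N : ℝ) + 2) - ((k : ℝ) + l + 2)) * ((N : ℝ) + 2))) := by ring
        _ ≤ 2 * (4 * a ^ 2 * (((k : ℝ) + l + 2) ^ 2 * ((k : ℝ) + l + 3))) := by linarith
        _ = 8 * a ^ 2 * ((k : ℝ) + l + 2) ^ 2 * ((k : ℝ) + l + 3) := by ring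
        _ ≤ 8 * a ^ 2 * ((k : ℝ) + l + 2) ^ 2 * (4 * ((l : ℝ) + 1)) := by gcongr
        _ = ((l : ℝ) + 1) * (32 * ((k : ℝ) + l + 2) ^ 2 * a ^ 2) := by ring
        _ ≤ _ := by
            have : 0 ≤ ((k : ℝ) + l + 2) ^ 2 * a ^ 2 := by positivity
            nlinarith
    exact le_of_mul_le_mul_left h5 hl1

end Q119.Lev
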