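import Pool.Agent.Y344.KD.Sum

/-!
# Weighted sums over the pairs of a point set: weights with given maximum, sum and first moment
-/

set_option autoImplicit false

namespace Q119.Lev

open Finset Pool.Agent.H189R2.Lev Pool.Agent.H189R2.Iid Pool.Agent.Y344.KD

theorem cube_root {x : ℝ} (hx : 0 ≤ x) : (x ^ 3) ^ (1 / 3 : ℝ) = x := by
  rw [← Real.rpow_natCast, ← Real.rpow_mul hx]
  norm_num

theorem cube_root2 {x : ℝ} (hx : 0 ≤ x) : (x ^ 3) ^ (2 / 3 : ℝ) = x ^ 2 := by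
  rw [← Real.rpow_natCast, ← Real.rpow_mul hx, ← Real.rpow_natCast]
  norm_num

/-- layer-cake with a general total weight -/
theorem layer_s {J : Finset ℕ} {e w : ℕ → ℝ} {A μ σ : ℝ} (hA : 0 ≤ A) (hμ : 0 < μ) (hσ : 0 < σ)
    (he : ∀ W ⊆ J, ∑ j ∈ W, e j ≤ A * (W.card : ℝ) ^ (2 / 3 : ℝ))
    (hw0 : ∀ j ∈ J, 0 ≤ w j) (hwM : ∀ j ∈ J, w j ≤ μ ^ 3) (hw : ∑ j ∈ J, w j ≤ σ ^ 3) :
    ∑ j ∈ J, e j * w j ≤ 5 * A * (μ * σ ^ 2) := by
  have hs : 0 < σ ^ 3 := by positivity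
  have h := layer (J := J) (e := e) (w := fun j => 2 / σ ^ 3 * w j) (A := A)
    (M := 2 / σ ^ 3 * μ ^ 3) hA (by positivity) he
    (fun j hj => mul_nonneg (by positivity) (hw0 j hj))
    (fun j hj => mul_le_mul_of_nonneg_left (hwM j hj) (by positivity)) (by
      rw [← mul_sum]
      calc 2 / σ ^ 3 * ∑ j ∈ J, w j ≤ 2 / σ ^ 3 * σ ^ 3 :=
            mul_le_mul_of_nonneg_left hw (by positivity)
        _ = 2 := div_mul_cancel₀ _ hs.ne')
  have h2 : ∑ j ∈ J, e j * (2 / σ ^ 3 * w j) = 2 / σ ^ 3 * ∑ j ∈ J, e j * w j := by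
    rw [mul_sum]
    apply sum_congr rfl
    intro j _
    ring
  rw [h2] at h
  -- cube root of 2 / σ ^ 3 * μ ^ 3
  have h3 : (2 / σ ^ 3 * μ ^ 3) ^ (1 / 3 : ℝ) ≤ 2 * μ / σ := by
    have : 2 / σ ^ 3 * μ ^ 3 ≤ (2 * μ / σ) ^ 3 := by
      have e1 : (2 * μ / σ) ^ 3 = 8 / σ ^ 3 * μ ^ 3 := by field_simp; norm_num
      rw [e1]
      gcongr
      norm_num
    calc (2 / σ ^ 3 * μ ^ 3) ^ (1 / 3 : ℝ) ≤ ((2 * μ / σ) ^ 3) ^ (1 / 3 : ℝ) :=
          Real.rpow_le_rpow (by positivity) this (by norm_num)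
      _ = _ := cube_root (by positivity)
  have h4 : 2 / σ ^ 3 * ∑ j ∈ J, e j * w j ≤ 2 / σ ^ 3 * (5 * A * (μ * σ ^ 2)) := by
    calc 2 / σ ^ 3 * ∑ j ∈ J, e j * w j ≤ 5 * A * (2 / σ ^ 3 * μ ^ 3) ^ (1 / 3 : ℝ) := h
      _ ≤ 5 * A * (2 * μ / σ) := mul_le_mul_of_nonneg_left h3 (by positivity)
      _ = 2 / σ ^ 3 * (5 * A * (μ * σ ^ 2)) := by field_simp
  exact le_of_mul_le_mul_left h4 (by positivity)

variable {n : ℕ} {P : Fin n → ℝ × ℝ}

theorem block (hP : GP P) {w : ℕ → ℝ} {a b : ℕ} (hb : 0 < b) {μ σ β : ℝ} (hμ : 0 < μ)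
    (hσ : 0 < σ) (hβ : 0 ≤ β) (hbβ : (b : ℝ) ≤ β ^ 3) (hw0 : ∀ t, 0 ≤ w t)
    (hwM : ∀ t, w t ≤ μ ^ 3) (hw : ∑ t ∈ Ico a b, w t ≤ σ ^ 3) :
    ∑ t ∈ Ico a b, ee P t * w t ≤ 90 * n * (β * (μ * σ ^ 2)) := by
  have h := layer_s (J := Ico a b) (e := ee P) (w := w) (A := 18 * n * β) (μ := μ) (σ := σ)
    (by positivity) hμ hσ (by
      intro W hW
      rw [sum_ee]
      have h1 := window hP W (K := b - 1) (fun k hk => by
        have := mem_Ico.mp (hW hk)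
        omega)
      have e : (((b - 1 : ℕ) : ℝ) + 1) = b := by
        have : b - 1 + 1 = b := Nat.sub_add_cancel hb
        exact_mod_cast this
      rw [e] at h1
      refine h1.trans ?_
      have h2 : (b : ℝ) ^ (1 / 3 : ℝ) ≤ β := by
        calc (b : ℝ) ^ (1 / 3 : ℝ) ≤ (β ^ 3) ^ (1 / 3 : ℝ) :=
              Real.rpow_le_rpow (Nat.cast_nonneg _) hbβ (by norm_num)
          _ = β := cube_root hβ
      calc 18 * (n : ℝ) * ((b : ℝ) ^ (1 / 3 : ℝ) * (W.card : ℝ) ^ (2 / 3 : ℝ)) ≤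
          18 * (n : ℝ) * (β * (W.card : ℝ) ^ (2 / 3 : ℝ)) := by gcongr
        _ = _ := by ring)
    (fun j _ => hw0 j) (fun j _ => hwM j) hw
  refine h.trans (le_of_eq ?_)
  ring

/-- **weighted sums**: maximum at most `μ ^ 3`, sum at most `σ ^ 3`, first moment at most `ρ ^ 3` -/
theorem wsum (hP : GP P) {w : ℕ → ℝ} {μ σ ρ : ℝ} (hμ : 0 < μ) (hσ : 0 < σ) (hρ : 0 < ρ)
    (hσρ : σ ≤ ρ) (hw0 : ∀ t, 0 ≤ w t) (hwM : ∀ t, w t ≤ μ ^ 3)
    (hw : ∀ L, ∑ t ∈ range L, w t ≤ σ ^ 3) (hw1 : ∀ L, ∑ t ∈ range L, ((t : ℝ) + 1) * w t ≤ ρ ^ 3) :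
    ∑ q ∈ T P, w (lev P q) ≤ 720 * n * (μ * σ * ρ) := by
  have hn0 : (0 : ℝ) ≤ n := Nat.cast_nonneg n
  set J : ℕ := ⌈ρ ^ 3 / σ ^ 3⌉₊ with hJ
  have hq1 : 1 ≤ ρ ^ 3 / σ ^ 3 := by
    rw [one_le_div (by positivity)]
    exact pow_le_pow_left₀ hσ.le hσρ 3
  have hJ1 : ρ ^ 3 / σ ^ 3 ≤ J := Nat.le_ceil _
  have hJ2 : (J : ℝ) ≤ 2 * (ρ ^ 3 / σ ^ 3) := by
    have := Nat.ceil_lt_add_one (show 0 ≤ ρ ^ 3 / σ ^ 3 by positivity)
    rw [← hJ] at this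
    linarith
  have hJ0 : 0 < J := Nat.ceil_pos.mpr (by linarith)
  have hJr : (0 : ℝ) < J := by exact_mod_cast hJ0
  -- cube roots
  set ι : ℝ := (J : ℝ) ^ (1 / 3 : ℝ) with hι
  have hι0 : 0 < ι := by positivity
  have hι3 : ι ^ 3 = J := by
    rw [hι, ← Real.rpow_natCast, ← Real.rpow_mul hJr.le]
    norm_num
  set κ : ℝ := (2 : ℝ) ^ (1 / 3 : ℝ) with hκ
  have hκ0 : 0 < κ := by positivity
  have hκ3 : κ ^ 3 = 2 := by
    rw [hκ, ← Real.rpow_natCast, ← Real.rpow_mul (by norm_num)]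
    norm_num
  have hκ1 : 5 / 4 ≤ κ := by
    apply le_of_pow_le_pow_left₀ (n := 3) (by norm_num) hκ0.le
    rw [hκ3]
    norm_num
  have hκ2 : κ ≤ 13 / 10 := by
    apply le_of_pow_le_pow_left₀ (n := 3) (by norm_num) (by norm_num)
    rw [hκ3]
    norm_num
  have hισ1 : ρ ≤ ι * σ := by
    apply le_of_pow_le_pow_left₀ (n := 3) (by norm_num) (by positivity)
    rw [mul_pow, hι3]
    rwa [div_le_iff₀ (by positivity)] at hJ1
  have hισ2 : ι * σ ≤ 13 / 10 * ρ := by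
    apply le_of_pow_le_pow_left₀ (n := 3) (by norm_num) (by positivity)
    rw [mul_pow, hι3, mul_pow]
    rw [← mul_div_assoc, le_div_iff₀ (by positivity)] at hJ2
    have : 0 < ρ ^ 3 := by positivity
    nlinarith
  -- blocks
  have hblock : ∀ L : ℕ, ∑ t ∈ range (J * 2 ^ L), ee P t * w t ≤
      90 * n * μ * (ι * σ ^ 2 + κ * ρ ^ 2 / ι * ∑ j ∈ range L, (4 / 5 : ℝ) ^ j) := by
    intro L
    induction L with
    | zero =>
      have h := block hP (w := w) (a := 0) (b := J) hJ0 hμ hσ hι0.le (by rw [hι3]) hw0 hwM (by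
        rw [← range_eq_Ico]; exact hw J)
      rw [← range_eq_Ico] at h
      simp only [pow_zero, mul_one, range_zero, sum_empty, mul_zero, add_zero]
      refine h.trans (le_of_eq ?_)
      ring
    | succ L ih =>
      have hle : J * 2 ^ L ≤ J * 2 ^ (L + 1) := Nat.mul_le_mul_left _ (Nat.pow_le_pow_right (by norm_num) (by omega))
      rw [← sum_range_add_sum_Ico _ hle]
      have hκL : 0 < κ ^ L := by positivity
      have hJL : (0 : ℝ) < J * 2 ^ L := by positivity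
      have h2L : (κ ^ L) ^ 3 = 2 ^ L := by
        rw [← pow_mul, mul_comm L 3, pow_mul, hκ3]
      have h := block hP (w := w) (a := J * 2 ^ L) (b := J * 2 ^ (L + 1)) (by positivity) hμ
        (σ := ρ / (ι * κ ^ L)) (by positivity) (β := ι * κ ^ L * κ) (by positivity) (by
          have : (ι * κ ^ L * κ) ^ 3 = ι ^ 3 * (κ ^ L) ^ 3 * κ ^ 3 := by ring
          rw [this, hι3, h2L, hκ3]
          push_cast
          rw [pow_succ]
          linarith) hw0 hwM (by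
          have e1 : (ρ / (ι * κ ^ L)) ^ 3 = ρ ^ 3 / (J * 2 ^ L) := by
            rw [div_pow, mul_pow, hι3, h2L]
          rw [e1, le_div_iff₀ hJL, sum_mul]
          calc ∑ t ∈ Ico (J * 2 ^ L) (J * 2 ^ (L + 1)), w t * ((J : ℝ) * 2 ^ L) ≤
              ∑ t ∈ Ico (J * 2 ^ L) (J * 2 ^ (L + 1)), ((t : ℝ) + 1) * w t := by
                apply sum_le_sum
                intro t ht
                have h1 : ((J * 2 ^ L : ℕ) : ℝ) ≤ t := by exact_mod_cast (mem_Ico.mp ht).1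
                push_cast at h1
                have := hw0 t
                nlinarith
            _ ≤ ∑ t ∈ range (J * 2 ^ (L + 1)), ((t : ℝ) + 1) * w t := by
                apply sum_le_sum_of_subset_of_nonneg
                · intro t ht
                  exact mem_range.mpr (mem_Ico.mp ht).2
                · intro t _ _
                  exact mul_nonneg (by positivity) (hw0 t)
            _ ≤ ρ ^ 3 := hw1 _)
      rw [sum_range_succ]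
      have e2 : ι * κ ^ L * κ * (μ * (ρ / (ι * κ ^ L)) ^ 2) = μ * (κ * ρ ^ 2 / ι * (1 / κ ^ L)) := by
        field_simp
      rw [e2] at h
      have e3 : 1 / κ ^ L ≤ (4 / 5 : ℝ) ^ L := by
        rw [one_div, ← inv_pow]
        apply pow_le_pow_left₀ (by positivity)
        rw [inv_le_comm₀ hκ0 (by norm_num)]
        norm_num
        linarith
      have e4 : 90 * (n : ℝ) * (μ * (κ * ρ ^ 2 / ι * (1 / κ ^ L))) ≤
          90 * (n : ℝ) * (μ * (κ * ρ ^ 2 / ι * (4 / 5 : ℝ) ^ L)) := by gcongr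
      calc _ ≤ 90 * n * μ * (ι * σ ^ 2 + κ * ρ ^ 2 / ι * ∑ j ∈ range L, (4 / 5 : ℝ) ^ j) +
            90 * (n : ℝ) * (μ * (κ * ρ ^ 2 / ι * (4 / 5 : ℝ) ^ L)) := add_le_add ih (h.trans e4)
        _ = _ := by ring
  have hgeo : ∀ L, ∑ j ∈ range L, (4 / 5 : ℝ) ^ j ≤ 5 := by
    intro L
    rw [geom_sum_eq (by norm_num)]
    have : (0 : ℝ) ≤ (4 / 5) ^ L := by positivity
    rw [div_le_iff_of_neg (by norm_num)]
    linarith
  obtain ⟨L, hL⟩ : ∃ L : ℕ, n + 1 ≤ J * 2 ^ L := by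
    refine ⟨n + 1, ?_⟩
    have h1 : n + 1 < 2 ^ (n + 1) := Nat.lt_two_pow_self
    nlinarith
  have h1 : ∑ q ∈ T P, w (lev P q) = ∑ t ∈ range (J * 2 ^ L), ee P t * w t := by
    rw [← sum_w, EW_all P hL]
  rw [h1]
  refine (hblock L).trans ?_
  have h2 : κ * ρ ^ 2 / ι * ∑ j ∈ range L, (4 / 5 : ℝ) ^ j ≤ κ * ρ ^ 2 / ι * 5 :=
    mul_le_mul_of_nonneg_left (hgeo L) (by positivity)
  have h3 : κ * ρ ^ 2 / ι ≤ 13 / 10 * (σ * ρ) := by
    rw [div_le_iff₀ hι0]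
    have : ρ * ρ ≤ (ι * σ) * ρ := mul_le_mul_of_nonneg_right hισ1 hρ.le
    calc κ * ρ ^ 2 ≤ 13 / 10 * ρ ^ 2 := by gcongr
      _ ≤ 13 / 10 * (σ * ρ) * ι := by nlinarith
  have h4 : ι * σ ^ 2 ≤ 13 / 10 * (σ * ρ) := by
    calc ι * σ ^ 2 = (ι * σ) * σ := by ring
      _ ≤ (13 / 10 * ρ) * σ := mul_le_mul_of_nonneg_right hισ2 hσ.le
      _ = _ := by ring
  have h5 : ι * σ ^ 2 + κ * ρ ^ 2 / ι * ∑ j ∈ range L, (4 / 5 : ℝ) ^ j ≤ 8 * (σ * ρ) := by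
    have : 0 < σ * ρ := by positivity
    linarith
  calc 90 * n * μ * (ι * σ ^ 2 + κ * ρ ^ 2 / ι * ∑ j ∈ range L, (4 / 5 : ℝ) ^ j) ≤
      90 * n * μ * (8 * (σ * ρ)) := mul_le_mul_of_nonneg_left h5 (by positivity)
    _ = _ := by ring

end Q119.Lev
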