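import Pool.Agent.Y344.KD.Final
import Pool.Agent.Q119.Lev.Hyp
import Pool.Agent.Q119.Lev.WSum

/-!
# The `k`-level of a random sub-arrangement with `m` lines
-/

set_option autoImplicit false

namespace Q119.Lev

open Finset Pool.Agent.H189R2.Lev Pool.Agent.H189R2.Iid Pool.Agent.Y344.KD
open Pool.Agent.Results.MP_a08d0a_co.SmoothedLevel (Simple crossings psi psi_le)

variable {n : ℕ}

open Classical in
/-- pairs of points of `R` with exactly `k` points of `R` below -/
noncomputable def cnt2 (P : Fin n → ℝ × ℝ) (k : ℕ) (R : Finset (Fin n)) : ℕ :=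
  ((T P).filter (fun q => q.1 ∈ R ∧ q.2 ∈ R ∧ (lowSet P q ∩ R).card = k)).card

/-- crossings of a sub-arrangement -/
theorem cross_sub2 {a B : Fin n → ℝ} {P : Fin n → ℝ × ℝ}
    (hP : ∀ i j, a j < a i → (P j).1 < (P i).1 ∧ ∀ l, (P l ∈ low (P i) (P j) ↔
      ht a B l (cr a B i j) < ht a B i (cr a B i j))) (R : Finset (Fin n)) (k : ℕ) :
    (crossings (sub a R) (sub B R) k).ncard ≤ cnt2 P k R := by
  classical
  unfold cnt2
  rw [← Set.ncard_coe_finset ((T P).filter (fun q => q.1 ∈ R ∧ q.2 ∈ R ∧ (lowSet P q ∩ R).card = k))]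
  set e := R.orderEmbOfFin rfl with he
  have hinj : Function.Injective e := e.injective
  have hmem : ∀ i, e i ∈ R := fun i => Finset.orderEmbOfFin_mem _ _ i
  have hsurj : ∀ l ∈ R, ∃ i, e i = l := by
    intro l hl
    have := Finset.range_orderEmbOfFin R (rfl : R.card = R.card)
    have h : l ∈ Set.range e := by rw [he, this]; exact_mod_cast hl
    exact h
  have hlow : ∀ (q : Fin n × Fin n) (l : Fin n), l ∈ lowSet P q ∩ R ↔
      P l ∈ low (P q.1) (P q.2) ∧ l ∈ R := by
    intro q l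
    simp [lowSet]
  have key : ∀ i j, a (e j) < a (e i) →
      {l | ht (sub a R) (sub B R) l (cr (sub a R) (sub B R) i j) <
        ht (sub a R) (sub B R) i (cr (sub a R) (sub B R) i j)}.ncard =
      (lowSet P (e i, e j) ∩ R).card := by
    intro i j hij
    rw [← Set.ncard_coe_finset (lowSet P (e i, e j) ∩ R), ← Set.ncard_image_of_injective _ hinj]
    congr 1
    ext l
    rw [Finset.mem_coe, hlow, Set.mem_image]
    constructor
    · rintro ⟨l', h1, rfl⟩
      exact ⟨((hP (e i) (e j) hij).2 (e l')).mpr h1, hmem l'⟩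
    · rintro ⟨h1, h2⟩
      obtain ⟨l', rfl⟩ := hsurj l h2
      exact ⟨l', ((hP (e i) (e j) hij).2 (e l')).mp h1, rfl⟩
  apply Set.ncard_le_ncard_of_injOn (fun q : Fin R.card × Fin R.card =>
    if a (e q.2) < a (e q.1) then (e q.1, e q.2) else (e q.2, e q.1))
  · rintro ⟨i, j⟩ ⟨h1, h2, h3⟩
    simp only at h1 h2 h3
    have h2' : a (e i) ≠ a (e j) := h2
    rw [mem_coe, mem_filter, mem_T]
    simp only
    by_cases h : a (e j) < a (e i)
    · rw [if_pos h]
      exact ⟨(hP _ _ h).1, hmem _, hmem _, by rw [← key i j h]; exact h3⟩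
    · rw [if_neg h]
      have h' : a (e i) < a (e j) := lt_of_le_of_ne (not_lt.mp h) h2'
      refine ⟨(hP _ _ h').1, hmem _, hmem _, ?_⟩
      rw [← key j i h']
      have h4 := ht_cr (a := sub a R) (B := sub B R) h2
      rw [cr_symm, h4]
      exact h3
  · rintro ⟨i, j⟩ ⟨h1, h2, _⟩ ⟨i', j'⟩ ⟨h1', h2', _⟩ heq
    simp only at h1 h2 h1' h2' heq
    split_ifs at heq with h h' h'
    · rw [Prod.mk.injEq] at heq
      rw [hinj heq.1, hinj heq.2]
    · rw [Prod.mk.injEq] at heq
      rw [hinj heq.1, hinj heq.2] at h1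
      exact absurd h1 (lt_asymm h1')
    · rw [Prod.mk.injEq] at heq
      rw [hinj heq.1, hinj heq.2] at h1
      exact absurd h1 (lt_asymm h1')
    · rw [Prod.mk.injEq] at heq
      rw [hinj heq.1, hinj heq.2]

/-- reflection in the abscissa -/
def fl (P : Fin n → ℝ × ℝ) : Fin n → ℝ × ℝ := fun i => ((P i).1, -(P i).2)

theorem X2_fl (P : Fin n → ℝ × ℝ) (i j : Fin n) : X2 (fl P i) (fl P j) = - X2 (P i) (P j) := by
  unfold X2 fl
  simp only
  rw [← neg_div]
  congr 1
  ring

theorem Y2_fl (P : Fin n → ℝ × ℝ) (i j : Fin n) : Y2 (fl P i) (fl P j) = - Y2 (P i) (P j) := by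
  unfold Y2
  rw [X2_fl]
  unfold fl
  simp only
  ring

theorem GP_fl {P : Fin n → ℝ × ℝ} (hP : GP P) : GP (fl P) := by
  refine ⟨fun i j h => hP.1 i j h, fun i j r s h1 h2 h => ?_⟩
  rw [X2_fl, X2_fl, neg_inj] at h
  exact hP.2 i j r s h1 h2 h

theorem T_fl (P : Fin n → ℝ × ℝ) : T (fl P) = T P := by
  unfold T
  rfl

open Classical in
theorem mem_lowSet {P : Fin n → ℝ × ℝ} {q : Fin n × Fin n} {l : Fin n} :
    l ∈ lowSet P q ↔ (P l).1 * X2 (P q.1) (P q.2) + (P l).2 < Y2 (P q.1) (P q.2) := by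
  unfold lowSet low
  simp

theorem not_mem_lowSet {P : Fin n → ℝ × ℝ} {q : Fin n × Fin n} (hq : (P q.2).1 < (P q.1).1) :
    q.1 ∉ lowSet P q ∧ q.2 ∉ lowSet P q := by
  rw [mem_lowSet, mem_lowSet]
  constructor
  · unfold Y2
    exact lt_irrefl _
  · have := E_snd (P := P) (q := q) hq
    unfold E at this
    intro h
    linarith

open Classical in
/-- the points above the line -/
theorem up_eq {P : Fin n → ℝ × ℝ} (hP : GP P) {q : Fin n × Fin n} (hq : (P q.2).1 < (P q.1).1) :
    lowSet (fl P) q = univ \ (lowSet P q ∪ {q.1, q.2}) := by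
  ext l
  rw [mem_lowSet, X2_fl, Y2_fl, mem_sdiff, mem_union, mem_lowSet]
  simp only [mem_univ, true_and, mem_insert, mem_singleton]
  have hl := E_line hP hq (v := l)
  have h1 := E_fst P q
  have h2 := E_snd (P := P) (q := q) hq
  unfold E at hl h1 h2
  simp only [fl]
  constructor
  · intro h hc
    rcases hc with hc | rfl | rfl
    · linarith
    · linarith
    · linarith
  · intro h
    push Not at h
    obtain ⟨h3, h4, h5⟩ := h
    have h6 : (P l).1 * X2 (P q.1) (P q.2) + (P l).2 ≠ Y2 (P q.1) (P q.2) := by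
      intro h6
      rcases hl (by linarith) with h | h
      · exact h4 h
      · exact h5 h
    have h7 := lt_of_le_of_ne h3 (Ne.symm h6)
    linarith

open Classical in
theorem lev_fl {P : Fin n → ℝ × ℝ} (hP : GP P) {q : Fin n × Fin n} (hq : (P q.2).1 < (P q.1).1) :
    lev (fl P) q + lev P q + 2 = n := by
  have hne : q.1 ≠ q.2 := by
    intro h
    rw [h] at hq
    exact lt_irrefl _ hq
  rw [lev_eq, lev_eq, up_eq hP hq]
  have h1 : (univ \ (lowSet P q ∪ {q.1, q.2})).card + (lowSet P q ∪ {q.1, q.2}).card = n := by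
    rw [card_sdiff_add_card_eq_card (subset_univ _)]
    simp
  have h2 : (lowSet P q ∪ {q.1, q.2}).card = (lowSet P q).card + 2 := by
    rw [card_union_of_disjoint, card_pair hne]
    rw [disjoint_right]
    intro x hx
    rw [mem_insert, mem_singleton] at hx
    rcases hx with rfl | rfl
    · exact (not_mem_lowSet hq).1
    · exact (not_mem_lowSet hq).2
  omega

open Classical in
/-- the number of `m`-sets for which a given pair is on level `k` -/
theorem split {P : Fin n → ℝ × ℝ} (hP : GP P) {q : Fin n × Fin n} (hq : q ∈ T P) (k l : ℕ) :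
    ((powersetCard (k + l + 2) (univ : Finset (Fin n))).filter
      (fun R => q.1 ∈ R ∧ q.2 ∈ R ∧ (lowSet P q ∩ R).card = k)).card ≤
      F (n - 2) k l (lev P q) := by
  rw [mem_T] at hq
  have hne : q.1 ≠ q.2 := by
    intro h
    rw [h] at hq
    exact lt_irrefl _ hq
  have hfl := lev_fl hP hq
  have hU : (lowSet (fl P) q).card = n - 2 - lev P q := by
    have : (lowSet (fl P) q).card = lev (fl P) q := rfl
    omega
  unfold F
  rw [← hU, lev_eq, ← card_powersetCard, ← card_powersetCard, ← card_product]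
  refine card_le_card_of_injOn (fun R => (lowSet P q ∩ R, lowSet (fl P) q ∩ R)) ?_ ?_
  · intro R hR
    rw [mem_coe, mem_filter, mem_powersetCard] at hR
    obtain ⟨⟨-, hRc⟩, h1, h2, h3⟩ := hR
    rw [mem_coe, mem_product, mem_powersetCard, mem_powersetCard]
    refine ⟨⟨inter_subset_left, h3⟩, ⟨inter_subset_left, ?_⟩⟩
    simp only
    have h4 : R = (lowSet P q ∩ R) ∪ (lowSet (fl P) q ∩ R) ∪ {q.1, q.2} := by
      ext x
      rw [up_eq hP hq]
      simp only [mem_union, mem_inter, mem_sdiff, mem_univ, true_and, mem_insert, mem_singleton]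
      constructor
      · intro hx
        tauto
      · rintro ((⟨-, hx⟩ | ⟨-, hx⟩) | hx | hx)
        · exact hx
        · exact hx
        · rw [hx]; exact h1
        · rw [hx]; exact h2
    have d1 : Disjoint (lowSet P q ∩ R) (lowSet (fl P) q ∩ R) := by
      rw [disjoint_left]
      intro x hx hx'
      rw [up_eq hP hq] at hx'
      simp only [mem_inter, mem_sdiff, mem_union] at hx hx'
      tauto
    have d2 : Disjoint ((lowSet P q ∩ R) ∪ (lowSet (fl P) q ∩ R)) {q.1, q.2} := by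
      rw [disjoint_right]
      intro x hx hx'
      rw [up_eq hP hq] at hx'
      have n1 := (not_mem_lowSet hq).1
      have n2 := (not_mem_lowSet hq).2
      simp only [mem_inter, mem_sdiff, mem_union, mem_insert, mem_singleton] at hx hx'
      rcases hx with rfl | rfl <;> tauto
    have h5 : R.card = (lowSet P q ∩ R).card + (lowSet (fl P) q ∩ R).card + 2 := by
      conv_lhs => rw [h4]
      rw [card_union_of_disjoint d2, card_union_of_disjoint d1, card_pair hne]
    omega
  · intro R hR R' hR' he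
    rw [mem_coe, mem_filter, mem_powersetCard] at hR hR'
    simp only [Prod.mk.injEq] at he
    have key : ∀ R R' : Finset (Fin n), q.1 ∈ R' → q.2 ∈ R' →
        lowSet P q ∩ R = lowSet P q ∩ R' → lowSet (fl P) q ∩ R = lowSet (fl P) q ∩ R' →
        R ⊆ R' := by
      intro R R' a1 a2 e1 e2 x hx
      by_cases b1 : x = q.1
      · rw [b1]; exact a1
      by_cases b2 : x = q.2
      · rw [b2]; exact a2
      by_cases b3 : x ∈ lowSet P q
      · have : x ∈ lowSet P q ∩ R := mem_inter.mpr ⟨b3, hx⟩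
        rw [e1] at this
        exact (mem_inter.mp this).2
      · have : x ∈ lowSet (fl P) q ∩ R := by
          rw [up_eq hP hq]
          simp only [mem_inter, mem_sdiff, mem_union, mem_univ, mem_insert, mem_singleton, true_and]
          tauto
        rw [e2] at this
        exact (mem_inter.mp this).2
    exact Subset.antisymm (key R R' hR'.2.1 hR'.2.2.1 he.1 he.2)
      (key R' R hR.2.1 hR.2.2.1 he.1.symm he.2.symm)

open Classical in
theorem sum_cnt2 {P : Fin n → ℝ × ℝ} (hP : GP P) (k l : ℕ) :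
    ∑ R ∈ powersetCard (k + l + 2) (univ : Finset (Fin n)), cnt2 P k R ≤
      ∑ q ∈ T P, F (n - 2) k l (lev P q) := by
  calc ∑ R ∈ powersetCard (k + l + 2) (univ : Finset (Fin n)), cnt2 P k R =
      ∑ q ∈ T P, ((powersetCard (k + l + 2) (univ : Finset (Fin n))).filter
      (fun R => q.1 ∈ R ∧ q.2 ∈ R ∧ (lowSet P q ∩ R).card = k)).card := by
        unfold cnt2
        simp only [card_filter]
        exact sum_comm
    _ ≤ _ := sum_le_sum (fun q hq => split hP hq k l)

theorem F_symm {N k l t : ℕ} (ht : t ≤ N) : F N k l t = F N l k (N - t) := by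
  unfold F
  have : N - (N - t) = t := by omega
  rw [this, mul_comm]

theorem sum_symm {P : Fin n → ℝ × ℝ} (hP : GP P) (k l : ℕ) :
    ∑ q ∈ T P, F (n - 2) k l (lev P q) = ∑ q ∈ T (fl P), F (n - 2) l k (lev (fl P) q) := by
  rw [T_fl]
  apply sum_congr rfl
  intro q hq
  have h := lev_fl hP (mem_T.mp hq)
  rw [F_symm (by omega)]
  congr 1
  omega

/-- the weighted sum for `k ≤ l` -/
theorem sum_F {P : Fin n → ℝ × ℝ} (hP : GP P) {k l : ℕ} (hkl : k ≤ l) (hn : k + l + 2 ≤ n) :
    ((∑ q ∈ T P, F (n - 2) k l (lev P q) : ℕ) : ℝ) ≤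
      1440 * ((k : ℝ) + l + 2) * (((k : ℝ) + 1) * ((n : ℝ) / ((n : ℝ) - (k + l + 2) + 1))) ^
        (1 / 6 : ℝ) * (n.choose (k + l + 2) : ℝ) := by
  obtain ⟨N, rfl⟩ : ∃ N, n = N + 2 := ⟨n - 2, by omega⟩
  have hN : k + l ≤ N := by omega
  have e0 : N + 2 - 2 = N := by omega
  rw [e0]
  set X : ℝ := ((N + 2).choose (k + l + 2) : ℝ) with hX
  have hX0 : 0 < X := by
    rw [hX]; exact_mod_cast Nat.choose_pos (by omega)
  set A : ℝ := ((N + 1).choose (k + l + 1) : ℝ) with hA
  have hA0 : 0 < A := by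
    rw [hA]; exact_mod_cast Nat.choose_pos (by omega)
  set m : ℝ := (k : ℝ) + l + 2 with hm
  set nn : ℝ := (N : ℝ) + 2 with hnn
  have hm0 : 0 < m := by positivity
  have hnn0 : 0 < nn := by positivity
  have hAX : X * m = nn * A := by
    have := Nat.add_one_mul_choose_eq (N + 1) (k + l + 1)
    have h' : (((N + 1 + 1) * (N + 1).choose (k + l + 1) : ℕ) : ℝ) =
        (((N + 1 + 1).choose (k + l + 1 + 1) * (k + l + 1 + 1) : ℕ) : ℝ) := by rw [this]
    push_cast at h'
    have e1 : (N : ℝ) + 1 + 1 = N + 2 := by ring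
    have e2 : (k : ℝ) + l + 1 + 1 = k + l + 2 := by ring
    rw [e1, e2] at h'
    rw [hX, hm, hnn, hA]
    exact h'.symm
  have hNr : (k : ℝ) + l ≤ N := by exact_mod_cast hN
  set z : ℝ := nn - m + 1 with hz
  have hz1 : 1 ≤ z := by rw [hz, hnn, hm]; linarith
  have hk0 : (0 : ℝ) ≤ k := Nat.cast_nonneg k
  have hk1 : (0 : ℝ) < (k : ℝ) + 1 := by linarith
  set D : ℝ := ((k : ℝ) + 1) * z * nn with hD
  have hD0 : 0 < D := by positivity
  have hsD : 0 < √D := Real.sqrt_pos.mpr hD0
  -- cube roots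
  have root : ∀ x : ℝ, 0 < x → ∃ y : ℝ, 0 < y ∧ y ^ 3 = x := by
    intro x hx
    refine ⟨x ^ (1 / 3 : ℝ), by positivity, ?_⟩
    rw [← Real.rpow_natCast, ← Real.rpow_mul hx.le]
    norm_num
  obtain ⟨μ, hμ0, hμ⟩ := root (m / nn * (6 * m / √D)) (by positivity)
  obtain ⟨σ, hσ0, hσ⟩ := root (m / nn) (by positivity)
  obtain ⟨ρ, hρ0, hρ⟩ := root ((k : ℝ) + 1) hk1
  have hσρ : σ ≤ ρ := by
    apply le_of_pow_le_pow_left₀ (n := 3) (by norm_num) hρ0.le
    rw [hσ, hρ]
    have : m / nn ≤ 1 := by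
      rw [div_le_one hnn0, hm, hnn]
      linarith
    linarith
  -- the weights
  set w : ℕ → ℝ := fun t => if t ≤ N then (F N k l t : ℝ) / X else 0 with hw
  have hw0 : ∀ t, 0 ≤ w t := by
    intro t
    simp only [hw]
    split_ifs
    · positivity
    · exact le_rfl
  have hloc : ∀ t, t ≤ N → (F N k l t : ℝ) ≤ A * (6 * m / √D) := by
    intro t ht
    have h := loc hkl hN ht
    have h2 : (F N k l t : ℝ) ^ 2 ≤ (A * (6 * m / √D)) ^ 2 := by
      have e1 : (A * (6 * m / √D)) ^ 2 = 36 * m ^ 2 * A ^ 2 / D := by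
        rw [mul_pow, div_pow, Real.sq_sqrt hD0.le]
        ring
      rw [e1, le_div_iff₀ hD0]
      have e2 : D = ((k : ℝ) + 1) * ((N : ℝ) - (k + l) + 1) * ((N : ℝ) + 2) := by
        rw [hD, hz, hnn, hm]; ring
      rw [e2]
      exact h
    exact le_of_sq_le_sq h2 (by positivity)
  have hwM : ∀ t, w t ≤ μ ^ 3 := by
    intro t
    rw [hμ]
    simp only [hw]
    split_ifs with ht
    · rw [div_le_iff₀ hX0]
      refine (hloc t ht).trans (le_of_eq ?_)
      have : A = m / nn * X := by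
        field_simp
        linarith
      rw [this]
      ring
    · positivity
  have hF : ∀ (f : ℕ → ℝ), (∀ t, 0 ≤ f t) → ∀ L, ∑ t ∈ range L, f t * w t ≤
      (∑ t ∈ range (N + 1), f t * (F N k l t : ℝ)) / X := by
    intro f hf L
    have h1 : ∑ t ∈ range L, f t * w t = ∑ t ∈ (range L).filter (· ≤ N), f t * (F N k l t : ℝ) / X := by
      rw [sum_filter]
      apply sum_congr rfl
      intro t _
      simp only [hw]
      split_ifs
      · ring
      · ring
    rw [h1, sum_div]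
    apply sum_le_sum_of_subset_of_nonneg
    · intro t ht
      rw [mem_filter] at ht
      exact mem_range.mpr (by omega)
    · intro t _ _
      have := hf t
      positivity
  have hs : ∀ L, ∑ t ∈ range L, w t ≤ σ ^ 3 := by
    intro L
    have h := hF (fun _ => 1) (fun _ => zero_le_one) L
    simp only [one_mul] at h
    refine h.trans (le_of_eq ?_)
    rw [hσ]
    have h2 : ∑ t ∈ range (N + 1), (F N k l t : ℝ) = A := by
      rw [hA, ← S0 k l N]; push_cast; rfl
    rw [h2, div_eq_div_iff hX0.ne' hnn0.ne']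
    linarith
  have hs1 : ∀ L, ∑ t ∈ range L, ((t : ℝ) + 1) * w t ≤ ρ ^ 3 := by
    intro L
    have h := hF (fun t => (t : ℝ) + 1) (fun _ => by positivity) L
    refine h.trans (le_of_eq ?_)
    rw [hρ]
    have h2 : ∑ t ∈ range (N + 1), ((t : ℝ) + 1) * (F N k l t : ℝ) = ((k : ℝ) + 1) * X := by
      have := S1 k l N
      have h' : ((∑ t ∈ range (N + 1), (t + 1) * F N k l t : ℕ) : ℝ) =
        (((k + 1) * (N + 2).choose (k + l + 2) : ℕ) : ℝ) := by rw [this]
      push_cast at h'
      exact h'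
    rw [h2, mul_div_assoc, div_self hX0.ne', mul_one]
  have hmain := wsum hP hμ0 hσ0 hρ0 hσρ hw0 hwM hs hs1
  have hsum : ((∑ q ∈ T P, F N k l (lev P q) : ℕ) : ℝ) = (∑ q ∈ T P, w (lev P q)) * X := by
    rw [Nat.cast_sum, sum_mul]
    apply sum_congr rfl
    intro q hq
    have h := lev_fl hP (mem_T.mp hq)
    simp only [hw]
    rw [if_pos (by omega), div_mul_cancel₀ _ hX0.ne']
  rw [hsum]
  apply mul_le_mul_of_nonneg_right _ hX0.le
  refine hmain.trans ?_
  -- the final computation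
  set y : ℝ := (((k : ℝ) + 1) * (((N + 2 : ℕ) : ℝ) / (((N + 2 : ℕ) : ℝ) - (k + l + 2) + 1))) ^
        (1 / 6 : ℝ) with hy
  have e3 : (((k : ℝ) + 1) * (((N + 2 : ℕ) : ℝ) / (((N + 2 : ℕ) : ℝ) - (k + l + 2) + 1))) =
      ((k : ℝ) + 1) * (nn / z) := by
    rw [hz, hnn, hm]
    push_cast
    ring
  have hy0 : 0 ≤ y := by
    rw [hy, e3]
    positivity
  have hy3 : y ^ 3 = √(((k : ℝ) + 1) * (nn / z)) := by
    rw [hy, e3, Real.sqrt_eq_rpow, ← Real.rpow_natCast, ← Real.rpow_mul (by positivity)]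
    norm_num
  have h5 : nn * (μ * σ * ρ) ≤ 2 * m * y := by
    apply le_of_pow_le_pow_left₀ (n := 3) (by norm_num) (by positivity)
    have e4 : (nn * (μ * σ * ρ)) ^ 3 = nn ^ 3 * (μ ^ 3 * σ ^ 3 * ρ ^ 3) := by ring
    rw [e4, hμ, hσ, hρ, mul_pow, mul_pow, hy3]
    have e5 : √(((k : ℝ) + 1) * (nn / z)) = ((k : ℝ) + 1) * nn / √D := by
      rw [eq_div_iff hsD.ne', ← Real.sqrt_mul (by positivity)]
      rw [Real.sqrt_eq_iff_mul_self_eq (by positivity) (by positivity), hD]
      field_simp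
    rw [e5]
    have e6 : nn ^ 3 * (m / nn * (6 * m / √D) * (m / nn) * ((k : ℝ) + 1)) =
        6 * m ^ 3 * (((k : ℝ) + 1) * nn / √D) := by
      field_simp
    rw [e6]
    have : 0 ≤ m ^ 3 * (((k : ℝ) + 1) * nn / √D) := by positivity
    nlinarith
  have e7 : ((N + 2 : ℕ) : ℝ) = nn := by rw [hnn]; push_cast; ring
  rw [e7]
  calc 720 * nn * (μ * σ * ρ) = 720 * (nn * (μ * σ * ρ)) := by ring
    _ ≤ 720 * (2 * m * y) := by linarith
    _ = 1440 * m * y := by ring

/-- average number of crossings on level `k` -/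
theorem avg_cross {P : Fin n → ℝ × ℝ} (hP : GP P) {k m : ℕ} (hkm : k + 2 ≤ m) (hn : m ≤ n) :
    ((∑ R ∈ powersetCard m (univ : Finset (Fin n)), cnt2 P k R : ℕ) : ℝ) ≤
      1440 * (m : ℝ) * ((((min k (m - 2 - k) : ℕ) : ℝ) + 1) * ((n : ℝ) / ((n : ℝ) - m + 1))) ^
        (1 / 6 : ℝ) * (n.choose m : ℝ) := by
  obtain ⟨l, rfl⟩ : ∃ l, m = k + l + 2 := ⟨m - k - 2, by omega⟩
  have h1 := sum_cnt2 hP k l
  have h1' : ((∑ R ∈ powersetCard (k + l + 2) (univ : Finset (Fin n)), cnt2 P k R : ℕ) : ℝ) ≤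
      ((∑ q ∈ T P, F (n - 2) k l (lev P q) : ℕ) : ℝ) := by exact_mod_cast h1
  refine h1'.trans ?_
  have e : k + l + 2 - 2 - k = l := by omega
  rw [e]
  push_cast
  rcases Nat.le_total k l with h | h
  · rw [min_eq_left (by exact_mod_cast h)]
    have := sum_F hP h hn
    push_cast at this
    exact this
  · rw [min_eq_right (by exact_mod_cast h)]
    have := sum_F (GP_fl hP) h (by omega : l + k + 2 ≤ n)
    rw [← sum_symm hP k l] at this
    push_cast at this
    have e1 : (l : ℝ) + k + 2 = k + l + 2 := by ring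
    have e2 : l + k + 2 = k + l + 2 := by ring
    rw [e1, e2] at this
    exact this

theorem cnt2_zero {P : Fin n → ℝ × ℝ} {k m : ℕ} (hkm : m < k + 2) {R : Finset (Fin n)}
    (hR : R.card = m) : cnt2 P k R = 0 := by
  classical
  unfold cnt2
  rw [card_eq_zero, filter_eq_empty_iff]
  rintro q hq ⟨h1, h2, h3⟩
  rw [mem_T] at hq
  have hne : q.1 ≠ q.2 := by
    intro h
    rw [h] at hq
    exact lt_irrefl _ hq
  have hsub : (lowSet P q ∩ R) ∪ {q.1, q.2} ⊆ R := by
    intro x hx
    simp only [mem_union, mem_inter, mem_insert, mem_singleton] at hx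
    rcases hx with hx | rfl | rfl
    · exact hx.2
    · exact h1
    · exact h2
  have hd : Disjoint (lowSet P q ∩ R) {q.1, q.2} := by
    rw [disjoint_right]
    intro x hx hx'
    have n1 := (not_mem_lowSet hq).1
    have n2 := (not_mem_lowSet hq).2
    simp only [mem_inter, mem_insert, mem_singleton] at hx hx'
    rcases hx with rfl | rfl <;> tauto
  have h4 := card_le_card hsub
  rw [card_union_of_disjoint hd, card_pair hne] at h4
  omega

end Q119.Lev
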