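import Pool.Agent.Q102.HL.DelFin
import Pool.Agent.Q119.Lev.Sub

/-!
# Deleting few lines makes the `⌊α m⌋`-level linear
-/

set_option autoImplicit false

namespace Q119.Lev

open Finset Pool.Agent.H189R2.Lev Pool.Agent.H189R2.Iid Pool.Agent.Y344.KD
open Pool.Agent.Results.MP_a08d0a_co.SmoothedLevel (Simple crossings psi psi_le)
open Pool.Agent.Q102.HL (quad sg sg_inj)

variable {n : ℕ}

/-- at most two points on a line -/
theorem two_on_line {P : Fin n → ℝ × ℝ} (hP : GP P) (a b : ℝ) :
    #{p ∈ (univ : Finset (Fin n)) | (P p).2 = a + b * (P p).1} ≤ 2 := by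
  by_contra hcon
  push Not at hcon
  rw [two_lt_card_iff] at hcon
  obtain ⟨p, q, r, hp, hq, hr, hpq, hpr, hqr⟩ := hcon
  simp only [mem_filter, mem_univ, true_and] at hp hq hr
  have key : ∀ u v w : Fin n, u ≠ v → u ≠ w → v ≠ w → (P u).2 = a + b * (P u).1 →
      (P v).2 = a + b * (P v).1 → (P w).2 = a + b * (P w).1 → (P v).1 < (P u).1 → False := by
    intro u v w huv huw hvw hu hv hw hlt
    have h := E_line hP (q := (u, v)) hlt (v := w)
    have hX : X2 (P u) (P v) = -b := by
      unfold X2
      rw [div_eq_iff (by linarith)]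
      rw [hu, hv]
      ring
    have hE : E P (u, v) (P w).1 = (P w).2 := by
      unfold E Y2
      simp only
      rw [hX, hu, hw]
      ring
    rcases h hE with h | h
    · exact huw h.symm
    · exact hvw h.symm
  have hne : (P p).1 ≠ (P q).1 := fun h => hpq (hP.1 p q h)
  rcases lt_or_gt_of_ne hne with h | h
  · exact key q p r hpq.symm hqr hpr hq hp hr h
  · exact key p q r hpq hpr hqr hp hq hr h

open scoped Classical in
/-- four sets of points, one of which is missed by every line -/
theorem exists_four {P : Fin n → ℝ × ℝ} (hP : GP P) {D : ℕ} (hD : D = 0 ∨ 4 * D + 8 ≤ n) :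
    ∃ S : Bool × Bool → Finset (Fin n),
      (∀ k l, k ≠ l → Disjoint (S k) (S l)) ∧ (∀ k, D ≤ #(S k)) ∧
      ∀ q ∈ T P, ∃ k, (∀ x ∈ S k, x ∈ lowSet P q) ∨ (∀ x ∈ S k, x ∉ lowSet P q) := by
  rcases hD with hD | hD
  · refine ⟨fun _ => ∅, fun _ _ _ => disjoint_empty_left _, fun _ => by rw [hD]; simp, ?_⟩
    intro q _
    exact ⟨(true, true), Or.inl fun x hx => absurd hx (notMem_empty x)⟩
  obtain ⟨c, y, s, h1, h2, h4, h5⟩ := quad (univ : Finset (Fin n)) (fun p => (P p).1)
    (fun p => (P p).2) (fun p _ q _ h => hP.1 p q h) (two_on_line hP) (K := D) (by simpa using hD)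
  refine ⟨fun k => {p ∈ (univ : Finset (Fin n)) | sg k.1 ((P p).1 - c) ∧
    sg k.2 (((P p).2 - y) - s * ((P p).1 - c))}, ?_, ?_, ?_⟩
  · intro k l hkl
    rw [disjoint_left]
    intro x hx hx'
    rw [mem_filter] at hx hx'
    exact hkl (Prod.ext (sg_inj hx.2.1 hx'.2.1) (sg_inj hx.2.2 hx'.2.2))
  · rintro ⟨a, b⟩
    cases a <;> cases b <;> simp only [sg, if_true, Bool.false_eq_true, if_false]
    · exact h5
    · exact h4
    · exact h2
    · exact h1
  · intro q _
    have hf : ∀ x, (Y2 (P q.1) (P q.2) - (P x).1 * X2 (P q.1) (P q.2) - (P x).2) =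
        (Y2 (P q.1) (P q.2) - c * X2 (P q.1) (P q.2) - y) -
        (X2 (P q.1) (P q.2) + s) * ((P x).1 - c) - (((P x).2 - y) - s * ((P x).1 - c)) := by
      intro x
      ring
    set G := Y2 (P q.1) (P q.2) - c * X2 (P q.1) (P q.2) - y with hG
    set A := X2 (P q.1) (P q.2) + s with hA
    rcases le_or_gt 0 G with hG0 | hG0 <;> rcases le_or_gt 0 A with hA0 | hA0
    · refine ⟨(false, false), Or.inl fun x hx => ?_⟩
      simp only [sg, mem_filter, Bool.false_eq_true, if_false, mem_univ, true_and] at hx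
      rw [mem_lowSet]
      have e1 := hf x
      have e2 := mul_nonpos_of_nonneg_of_nonpos hA0 hx.1.le
      linarith [hx.2]
    · refine ⟨(true, false), Or.inl fun x hx => ?_⟩
      simp only [sg, mem_filter, Bool.false_eq_true, if_false, if_true, mem_univ, true_and] at hx
      rw [mem_lowSet]
      have e1 := hf x
      have e2 := mul_neg_of_neg_of_pos hA0 hx.1
      linarith [hx.2]
    · refine ⟨(true, true), Or.inr fun x hx => ?_⟩
      simp only [sg, mem_filter, if_true, mem_univ, true_and] at hx
      rw [mem_lowSet]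
      have e1 := hf x
      have e2 := mul_nonneg hA0 hx.1.le
      linarith [hx.2]
    · refine ⟨(false, true), Or.inr fun x hx => ?_⟩
      simp only [sg, mem_filter, if_true, Bool.false_eq_true, if_false, mem_univ, true_and] at hx
      rw [mem_lowSet]
      have e1 := hf x
      have e2 := mul_pos_of_neg_of_neg hA0 hx.1
      linarith [hx.2]

theorem chain {α : Type*} (S : Finset α) {D : ℕ} (h : D ≤ #S) :
    ∃ T : ℕ → Finset α, (∀ j, T j ⊆ S) ∧ ∀ j ≤ D, #(T j) = j := by
  have : ∀ j, ∃ T ⊆ S, j ≤ D → #T = j := by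
    intro j
    by_cases hj : j ≤ D
    · obtain ⟨T, hT, hc⟩ := exists_subset_card_eq (show j ≤ #S by omega)
      exact ⟨T, hT, fun _ => hc⟩
    · exact ⟨∅, empty_subset _, fun h => absurd h hj⟩
  choose T hT hc using this
  exact ⟨T, hT, hc⟩

/-- a set of numbers of small diameter is small -/
theorem diam_card {I : Finset ℕ} {B : ℕ} (hB : 0 < B) (h : ∀ i ∈ I, ∀ i' ∈ I, i' < i + B) :
    #I ≤ B := by
  rcases I.eq_empty_or_nonempty with rfl | hne
  · simp
  have h1 : I ⊆ Ico (I.min' hne) (I.min' hne + B) := by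
    intro i hi
    rw [mem_Ico]
    exact ⟨I.min'_le i hi, h _ (I.min'_mem hne) i hi⟩
  have := card_le_card h1
  rw [Nat.card_Ico] at this
  omega

section fam

variable {κ : Type*} [Fintype κ]

open scoped Classical in
/-- the elements that remain -/
noncomputable def rem (T : κ → ℕ → Finset (Fin n)) (j : κ → ℕ) : Finset (Fin n) :=
  univ \ univ.biUnion (fun k => T k (j k))

variable {S : κ → Finset (Fin n)} {T' : κ → ℕ → Finset (Fin n)} {D : ℕ}

theorem mem_rem {j : κ → ℕ} {x : Fin n} : x ∈ rem T' j ↔ ∀ k, x ∉ T' k (j k) := by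
  unfold rem
  rw [mem_sdiff, mem_biUnion]
  simp

theorem card_rem (hS : ∀ k l, k ≠ l → Disjoint (S k) (S l))
    (hT : ∀ k j, T' k j ⊆ S k) (hTc : ∀ k, ∀ j ≤ D, #(T' k j) = j) {j : κ → ℕ}
    (hj : ∀ k, j k ≤ D) : #(rem T' j) + ∑ k, j k = n := by
  classical
  have h2 : #(univ.biUnion (fun k => T' k (j k))) = ∑ k, j k := by
    rw [card_biUnion]
    · exact sum_congr rfl fun k _ => hTc k _ (hj k)
    · intro k _ l _ hkl
      exact Disjoint.mono (hT k _) (hT l _) (hS k l hkl)
  rw [← h2]
  unfold rem
  have := card_sdiff_add_card_eq_card (subset_univ (univ.biUnion (fun k => T' k (j k))))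
  rw [card_univ, Fintype.card_fin] at this
  convert this

open scoped Classical in
/-- few choices keep a given pair on the level -/
theorem few' [DecidableEq κ] (hS : ∀ k l, k ≠ l → Disjoint (S k) (S l))
    (hT : ∀ k j, T' k j ⊆ S k) (hTc : ∀ k, ∀ j ≤ D, #(T' k j) = j)
    {P : Fin n → ℝ × ℝ} {q : Fin n × Fin n}
    (hz : ∃ k, (∀ x ∈ S k, x ∈ lowSet P q) ∨ (∀ x ∈ S k, x ∉ lowSet P q))
    {α : ℝ} {B : ℕ} (hB : 0 < B) (hα : 1 ≤ α * B) (hα' : 1 ≤ (1 - α) * B) (e : ℕ) :
    (D + 1) * #{j ∈ Fintype.piFinset (fun _ : κ => range (D + 1)) |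
      (lowSet P q ∩ rem T' j).card + e = ⌊α * #(rem T' j)⌋₊} ≤
      B * #(Fintype.piFinset (fun _ : κ => range (D + 1))) := by
  obtain ⟨k0, hk0⟩ := hz
  set J := Fintype.piFinset (fun _ : κ => range (D + 1)) with hJ
  set G := {j ∈ J | (lowSet P q ∩ rem T' j).card + e = ⌊α * #(rem T' j)⌋₊} with hG
  have hmemJ : ∀ j, j ∈ J ↔ ∀ k, j k ≤ D := by
    intro j
    rw [hJ, Fintype.mem_piFinset]
    constructor
    · intro h k
      have := mem_range.1 (h k)
      omega
    · intro h k
      exact mem_range.2 (by have := h k; omega)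
  -- fibres of setting the coordinate to zero
  have hfib : ∀ j' ∈ G.image (fun j => Function.update j k0 0),
      #{j ∈ G | Function.update j k0 0 = j'} ≤ B := by
    intro j' _
    have hinj : Set.InjOn (fun j : κ → ℕ => j k0) ({j ∈ G | Function.update j k0 0 = j'} : Finset _) := by
      intro j hj i hi hji
      rw [mem_coe, mem_filter] at hj hi
      funext k
      by_cases hk : k = k0
      · rw [hk]; exact hji
      · have h1 := congrFun hj.2 k
        have h2 := congrFun hi.2 k
        rw [Function.update_of_ne hk] at h1 h2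
        rw [h1, h2]
    rw [← card_image_of_injOn hinj]
    apply diam_card hB
    intro i hi i' hi'
    rw [mem_image] at hi hi'
    obtain ⟨j, hj, rfl⟩ := hi
    obtain ⟨j₂, hj₂, rfl⟩ := hi'
    rw [mem_filter, hG, mem_filter, hmemJ] at hj hj₂
    obtain ⟨⟨hjD, hjv⟩, hju⟩ := hj
    obtain ⟨⟨hjD₂, hjv₂⟩, hju₂⟩ := hj₂
    have e2 : ∀ k, k ≠ k0 → j k = j₂ k := by
      intro k hk
      have h1 := congrFun hju k
      have h2 := congrFun hju₂ k
      rw [Function.update_of_ne hk] at h1 h2
      rw [h1, h2]
    have c1 := card_rem hS hT hTc hjD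
    have c2 := card_rem hS hT hTc hjD₂
    have s1 : ∑ k, j k = j k0 + ∑ k ∈ univ.erase k0, j k := (add_sum_erase univ j (mem_univ k0)).symm
    have s2 : ∑ k, j₂ k = j₂ k0 + ∑ k ∈ univ.erase k0, j k := by
      rw [← add_sum_erase univ j₂ (mem_univ k0)]
      congr 1
      exact (sum_congr rfl fun k hk => e2 k (ne_of_mem_erase hk)).symm
    by_contra hcon
    push Not at hcon
    -- the real inequalities
    have f1 := Nat.floor_le (a := α * #(rem T' j)) (by
      by_contra h
      push Not at h
      have h2 : ⌊α * (#(rem T' j) : ℝ)⌋₊ = 0 := Nat.floor_eq_zero.mpr (by linarith)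
      have hα0 : 0 < α := by
        have : (0 : ℝ) < B := by exact_mod_cast hB
        by_contra h3
        push Not at h3
        nlinarith
      have : 0 ≤ α * (#(rem T' j) : ℝ) := by positivity
      linarith)
    have hα0 : 0 < α := by
      have : (0 : ℝ) < B := by exact_mod_cast hB
      by_contra h3
      push Not at h3
      nlinarith
    have f1' := Nat.lt_floor_add_one (α * #(rem T' j))
    have f2 := Nat.floor_le (a := α * #(rem T' j₂)) (by positivity)
    have f2' := Nat.lt_floor_add_one (α * #(rem T' j₂))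
    rw [← hjv] at f1 f1'
    rw [← hjv₂] at f2 f2'
    push_cast at f1 f1' f2 f2'
    have hM : (#(rem T' j) : ℝ) = #(rem T' j₂) + ((j₂ k0 : ℝ) - j k0) := by
      have : #(rem T' j) + j k0 = #(rem T' j₂) + j₂ k0 := by omega
      have : (#(rem T' j) : ℝ) + j k0 = #(rem T' j₂) + j₂ k0 := by exact_mod_cast this
      linarith
    have hd : (B : ℝ) ≤ (j₂ k0 : ℝ) - j k0 := by
      have : (j k0 : ℝ) + B ≤ j₂ k0 := by exact_mod_cast hcon
      linarith
    have hB0 : (0 : ℝ) < B := by exact_mod_cast hB
    rcases hk0 with hk0 | hk0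
    · -- the group is below
      have hL : (lowSet P q ∩ rem T' j).card + j k0 = (lowSet P q ∩ rem T' j₂).card + j₂ k0 := by
        have hdec : ∀ i : κ → ℕ, (∀ k, i k ≤ D) →
            (lowSet P q ∩ rem T' i).card + i k0 =
            (lowSet P q \ (univ.erase k0).biUnion (fun k => T' k (i k))).card := by
          intro i hi
          have h1 : T' k0 (i k0) ⊆ lowSet P q \ (univ.erase k0).biUnion (fun k => T' k (i k)) := by
            intro x hx
            rw [mem_sdiff, mem_biUnion]
            refine ⟨hk0 x (hT _ _ hx), ?_⟩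
            rintro ⟨k, hk, hxk⟩
            exact (disjoint_left.mp (hS k k0 (ne_of_mem_erase hk))) (hT _ _ hxk) (hT _ _ hx)
          rw [← card_sdiff_add_card_eq_card h1, hTc k0 _ (hi k0)]
          congr 2
          ext x
          rw [mem_inter, mem_rem, mem_sdiff, mem_sdiff, mem_biUnion]
          constructor
          · rintro ⟨h2, h3⟩
            exact ⟨⟨h2, fun ⟨k, _, hk⟩ => h3 k hk⟩, h3 k0⟩
          · rintro ⟨⟨h2, h3⟩, h4⟩
            refine ⟨h2, fun k hk => ?_⟩
            by_cases hkk : k = k0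
            · subst hkk; exact h4 hk
            · exact h3 ⟨k, mem_erase.mpr ⟨hkk, mem_univ _⟩, hk⟩
        rw [hdec j hjD, hdec j₂ hjD₂]
        congr 2
        apply biUnion_congr rfl
        intro k hk
        rw [e2 k (ne_of_mem_erase hk)]
      have hL' : ((lowSet P q ∩ rem T' j).card : ℝ) + j k0 =
          (lowSet P q ∩ rem T' j₂).card + j₂ k0 := by exact_mod_cast hL
      -- L₂ + e ≥ α M₂ - 1, L + e ≤ α M
      have : (1 - α) * ((j₂ k0 : ℝ) - j k0) < 1 := by
        rw [hM] at f1
        nlinarith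
      have : (1 - α) * B ≤ (1 - α) * ((j₂ k0 : ℝ) - j k0) := by
        apply mul_le_mul_of_nonneg_left hd
        by_contra h3
        push Not at h3
        nlinarith
      linarith
    · have hL : lowSet P q ∩ rem T' j = lowSet P q ∩ rem T' j₂ := by
        ext x
        rw [mem_inter, mem_inter, mem_rem, mem_rem]
        constructor
        · rintro ⟨h2, h3⟩
          refine ⟨h2, fun k hk => ?_⟩
          by_cases hkk : k = k0
          · subst hkk; exact hk0 x (hT _ _ hk) h2
          · rw [← e2 k hkk] at hk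
            exact h3 k hk
        · rintro ⟨h2, h3⟩
          refine ⟨h2, fun k hk => ?_⟩
          by_cases hkk : k = k0
          · subst hkk; exact hk0 x (hT _ _ hk) h2
          · rw [e2 k hkk] at hk
            exact h3 k hk
      rw [hL, hM] at f1'
      have : α * ((j₂ k0 : ℝ) - j k0) < 1 := by nlinarith
      have : α * B ≤ α * ((j₂ k0 : ℝ) - j k0) := mul_le_mul_of_nonneg_left hd hα0.le
      linarith
  have h1 : #G ≤ B * #(G.image (fun j => Function.update j k0 0)) :=
    card_le_mul_card_image _ _ hfib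
  have h2 : (D + 1) * #(G.image (fun j => Function.update j k0 0)) ≤ #J := by
    nth_rewrite 1 [← card_range (D + 1)]
    rw [← card_product]
    refine card_le_card_of_injOn (fun q => Function.update q.2 k0 q.1) ?_ ?_
    · rintro ⟨i, j⟩ hq
      rw [mem_coe, mem_product, mem_image] at hq
      obtain ⟨hi, j0, hj0, hj⟩ := hq
      simp only at hi hj
      rw [mem_coe, hmemJ]
      intro k
      simp only
      by_cases hk : k = k0
      · rw [hk, Function.update_self]
        have := mem_range.1 hi
        omega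
      · rw [Function.update_of_ne hk, ← hj, Function.update_of_ne hk]
        exact (hmemJ j0).1 (mem_filter.1 hj0).1 k
    · rintro ⟨i, j⟩ hq ⟨i', j'⟩ hq' he
      rw [mem_coe, mem_product, mem_image] at hq hq'
      obtain ⟨-, j0, -, hj⟩ := hq
      obtain ⟨-, j0', -, hj'⟩ := hq'
      simp only at he hj hj'
      have e1 : i = i' := by
        have := congrFun he k0
        rwa [Function.update_self, Function.update_self] at this
      rw [e1]
      congr 1
      funext k
      by_cases hk : k = k0
      · rw [hk, ← hj, ← hj', Function.update_self, Function.update_self]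
      · have := congrFun he k
        rwa [Function.update_of_ne hk, Function.update_of_ne hk] at this
  calc (D + 1) * #G ≤ (D + 1) * (B * #(G.image (fun j => Function.update j k0 0))) :=
        Nat.mul_le_mul_left _ h1
    _ = B * ((D + 1) * #(G.image (fun j => Function.update j k0 0))) := by ring
    _ ≤ B * #J := Nat.mul_le_mul_left _ h2

end fam

end Q119.Lev
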