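import Pool.Agent.Q119.Lev.Del

/-!
# Deleting few lines makes the `⌊α m⌋`-levels linear: the bound
-/

set_option autoImplicit false

namespace Q119.Lev

open Finset Pool.Agent.H189R2.Lev Pool.Agent.H189R2.Iid Pool.Agent.Y344.KD
open Pool.Agent.Results.MP_a08d0a_co.SmoothedLevel (Simple crossings psi psi_le)

variable {n : ℕ}

/-- number of vertices, in the dual, of the `k`-level of the points of `R` -/
noncomputable def verts (P : Fin n → ℝ × ℝ) (k : ℕ) (R : Finset (Fin n)) : ℕ :=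
  cnt2 P k R + (if k = 0 then 0 else cnt2 P (k - 1) R)

/-- the levels that can become the `⌊α m⌋`-level after at most `4 D` deletions -/
noncomputable def win (n D : ℕ) (α : ℝ) : Finset ℕ :=
  Icc (⌊α * ((n : ℝ) - 4 * D)⌋₊ - 1) (⌊α * n⌋₊ + 4 * D)

open scoped Classical in
theorem exists_rem {P : Fin n → ℝ × ℝ} (hP : GP P) {D : ℕ} (hD : D = 0 ∨ 4 * D + 8 ≤ n)
    (A : Finset ℝ) (hA : ∀ α ∈ A, 0 < α ∧ α < 1) (B : ℝ → ℕ)
    (hB : ∀ α ∈ A, 0 < B α ∧ 1 ≤ α * B α ∧ 1 ≤ (1 - α) * B α) :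
    ∃ R : Finset (Fin n), n ≤ #R + 4 * D ∧
      (D + 1) * ∑ α ∈ A, verts P ⌊α * #R⌋₊ R ≤ ∑ α ∈ A, 2 * B α * #(EW P (win n D α)) := by
  obtain ⟨S, hS, hSD, hz⟩ := exists_four hP hD
  have hch : ∀ k, ∃ T : ℕ → Finset (Fin n), (∀ j, T j ⊆ S k) ∧ ∀ j ≤ D, #(T j) = j :=
    fun k => chain (S k) (hSD k)
  choose T' hT hTc using hch
  set J : Finset (Bool × Bool → ℕ) := Fintype.piFinset (fun _ => range (D + 1)) with hJ
  have hJne : J.Nonempty := by
    rw [hJ, Fintype.piFinset_nonempty]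
    exact fun _ => ⟨0, mem_range.2 (by omega)⟩
  have hJD : ∀ j ∈ J, ∀ k, j k ≤ D := by
    intro j hj k
    have := mem_range.1 (Fintype.mem_piFinset.1 hj k)
    omega
  have hcard : ∀ j ∈ J, n ≤ #(rem T' j) + 4 * D ∧ #(rem T' j) ≤ n := by
    intro j hj
    have c1 := card_rem hS hT hTc (hJD j hj)
    have c2 : ∑ k, j k ≤ 4 * D := by
      refine (sum_le_card_nsmul univ j D fun k _ => hJD j hj k).trans ?_
      rw [smul_eq_mul, card_univ]
      simp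
    omega
  -- one level
  have hlev : ∀ α ∈ A, ∀ e : ℕ, e ≤ 1 → ∀ j ∈ J, ∀ q ∈ T P,
      (lowSet P q ∩ rem T' j).card + e = ⌊α * #(rem T' j)⌋₊ → q ∈ EW P (win n D α) := by
    intro α hα e he j hj q hq h
    unfold EW
    rw [mem_filter]
    refine ⟨hq, ?_⟩
    obtain ⟨c1, c2⟩ := hcard j hj
    have hα0 := (hA α hα).1
    have h1 : ⌊α * ((n : ℝ) - 4 * D)⌋₊ ≤ ⌊α * #(rem T' j)⌋₊ := by
      apply Nat.floor_le_floor
      apply mul_le_mul_of_nonneg_left _ hα0.le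
      have : (n : ℝ) ≤ #(rem T' j) + 4 * D := by exact_mod_cast c1
      linarith
    have h2 : ⌊α * #(rem T' j)⌋₊ ≤ ⌊α * n⌋₊ := by
      apply Nat.floor_le_floor
      apply mul_le_mul_of_nonneg_left _ hα0.le
      exact_mod_cast c2
    have h3 : lev P q = (lowSet P q ∩ rem T' j).card + (lowSet P q \ rem T' j).card := by
      rw [lev_eq, card_inter_add_card_sdiff]
    have h4 : (lowSet P q \ rem T' j).card ≤ 4 * D := by
      have : (lowSet P q \ rem T' j).card ≤ (univ \ rem T' j).card :=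
        card_le_card (sdiff_subset_sdiff (subset_univ _) (le_refl _))
      have h5 := card_sdiff_add_card_eq_card (subset_univ (rem T' j))
      rw [card_univ, Fintype.card_fin] at h5
      omega
    unfold win
    rw [mem_Icc]
    omega
  have hone : ∀ α ∈ A, ∀ e : ℕ, e ≤ 1 →
      (D + 1) * ∑ j ∈ J, #{q ∈ T P | q.1 ∈ rem T' j ∧ q.2 ∈ rem T' j ∧
        (lowSet P q ∩ rem T' j).card + e = ⌊α * #(rem T' j)⌋₊} ≤
      B α * #(EW P (win n D α)) * #J := by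
    intro α hα e he
    obtain ⟨b0, b1, b2⟩ := hB α hα
    calc (D + 1) * ∑ j ∈ J, #{q ∈ T P | q.1 ∈ rem T' j ∧ q.2 ∈ rem T' j ∧
        (lowSet P q ∩ rem T' j).card + e = ⌊α * #(rem T' j)⌋₊} ≤
        (D + 1) * ∑ j ∈ J, #{q ∈ EW P (win n D α) |
          (lowSet P q ∩ rem T' j).card + e = ⌊α * #(rem T' j)⌋₊} := by
          apply Nat.mul_le_mul_left
          apply sum_le_sum
          intro j hj
          apply card_le_card
          intro q hq
          rw [mem_filter] at hq ⊢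
          exact ⟨hlev α hα e he j hj q hq.1 hq.2.2.2, hq.2.2.2⟩
      _ = ∑ q ∈ EW P (win n D α), (D + 1) * #{j ∈ J |
          (lowSet P q ∩ rem T' j).card + e = ⌊α * #(rem T' j)⌋₊} := by
          rw [← mul_sum]
          congr 1
          simp only [card_filter]
          exact sum_comm
      _ ≤ ∑ q ∈ EW P (win n D α), B α * #J := by
          apply sum_le_sum
          intro q hq
          have hqT : q ∈ T P := by
            unfold EW at hq
            exact (mem_filter.mp hq).1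
          exact few' hS hT hTc (hz q hqT) b0 b1 b2 e
      _ = _ := by rw [sum_const, smul_eq_mul]; ring
  have htot : ∑ j ∈ J, (D + 1) * ∑ α ∈ A, verts P ⌊α * #(rem T' j)⌋₊ (rem T' j) ≤
      ∑ j ∈ J, ∑ α ∈ A, 2 * B α * #(EW P (win n D α)) := by
    rw [← mul_sum, sum_comm, mul_sum, sum_const, smul_eq_mul, mul_sum]
    apply sum_le_sum
    intro α hα
    have h0 := hone α hα 0 (by omega)
    have h1 := hone α hα 1 le_rfl
    have hle : ∑ j ∈ J, verts P ⌊α * #(rem T' j)⌋₊ (rem T' j) ≤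
        ∑ j ∈ J, #{q ∈ T P | q.1 ∈ rem T' j ∧ q.2 ∈ rem T' j ∧
          (lowSet P q ∩ rem T' j).card + 0 = ⌊α * #(rem T' j)⌋₊} +
        ∑ j ∈ J, #{q ∈ T P | q.1 ∈ rem T' j ∧ q.2 ∈ rem T' j ∧
          (lowSet P q ∩ rem T' j).card + 1 = ⌊α * #(rem T' j)⌋₊} := by
      rw [← sum_add_distrib]
      apply sum_le_sum
      intro j _
      unfold verts
      apply Nat.add_le_add
      · unfold cnt2
        simp
      · split_ifs with h
        · exact Nat.zero_le _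
        · unfold cnt2
          apply card_le_card
          intro q hq
          rw [mem_filter] at hq ⊢
          refine ⟨hq.1, hq.2.1, hq.2.2.1, ?_⟩
          rw [hq.2.2.2]
          omega
    calc (D + 1) * ∑ j ∈ J, verts P ⌊α * #(rem T' j)⌋₊ (rem T' j) ≤
        (D + 1) * (∑ j ∈ J, #{q ∈ T P | q.1 ∈ rem T' j ∧ q.2 ∈ rem T' j ∧
          (lowSet P q ∩ rem T' j).card + 0 = ⌊α * #(rem T' j)⌋₊} +
        ∑ j ∈ J, #{q ∈ T P | q.1 ∈ rem T' j ∧ q.2 ∈ rem T' j ∧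
          (lowSet P q ∩ rem T' j).card + 1 = ⌊α * #(rem T' j)⌋₊}) := Nat.mul_le_mul_left _ hle
      _ ≤ B α * #(EW P (win n D α)) * #J + B α * #(EW P (win n D α)) * #J := by
          rw [Nat.mul_add]
          exact Nat.add_le_add h0 h1
      _ = _ := by ring
  obtain ⟨j, hj, h2⟩ := exists_le_of_sum_le hJne htot
  exact ⟨rem T' j, (hcard j hj).1, h2⟩

/-- the number of pairs in the window -/
theorem win_le {P : Fin n → ℝ × ℝ} (hP : GP P) {D : ℕ} (hD : 8 * D ≤ n) (hn : 0 < n) {α : ℝ}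
    (h0 : 0 < α) (h1 : α < 1) :
    (#(EW P (win n D α)) : ℝ) ≤
      94 * n * ((n : ℝ) ^ (1 / 3 : ℝ) * (((D : ℝ) + 1) ^ (1 / 3 : ℝ)) ^ 2) := by
  have hn0 : (0 : ℝ) < n := by exact_mod_cast hn
  have hD' : 8 * (D : ℝ) ≤ n := by exact_mod_cast hD
  have hw := window hP (win n D α) (K := ⌊α * n⌋₊ + 4 * D) (fun k hk => by
    unfold win at hk
    exact (mem_Icc.1 hk).2)
  refine hw.trans ?_
  have hf : (⌊α * n⌋₊ : ℝ) ≤ α * n := Nat.floor_le (by positivity)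
  have hf2 : ⌊α * (n : ℝ)⌋₊ < n := by
    rw [Nat.floor_lt (by positivity)]
    nlinarith
  have e1 : (((⌊α * n⌋₊ + 4 * D : ℕ) : ℝ) + 1) ^ (1 / 3 : ℝ) ≤ 13 / 10 * (n : ℝ) ^ (1 / 3 : ℝ) := by
    have h3 : ((⌊α * n⌋₊ + 4 * D : ℕ) : ℝ) + 1 ≤ (13 / 10) ^ 3 * n := by
      have : ((⌊α * n⌋₊ : ℕ) : ℝ) + 1 ≤ n := by exact_mod_cast hf2
      push_cast
      nlinarith
    calc (((⌊α * n⌋₊ + 4 * D : ℕ) : ℝ) + 1) ^ (1 / 3 : ℝ) ≤ ((13 / 10) ^ 3 * (n : ℝ)) ^ (1 / 3 : ℝ) :=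
          Real.rpow_le_rpow (by positivity) h3 (by norm_num)
      _ = _ := by
          rw [Real.mul_rpow (by norm_num) hn0.le, cube_root (by norm_num)]
  have e2 : ((win n D α).card : ℝ) ^ (2 / 3 : ℝ) ≤ 4 * (((D : ℝ) + 1) ^ (1 / 3 : ℝ)) ^ 2 := by
    have h3 : ((win n D α).card : ℝ) ≤ 8 * ((D : ℝ) + 1) := by
      unfold win
      rw [Nat.card_Icc]
      have h4 : ((⌊α * n⌋₊ + 4 * D + 1 - (⌊α * ((n : ℝ) - 4 * D)⌋₊ - 1) : ℕ) : ℝ) ≤
          (⌊α * n⌋₊ : ℝ) + 4 * D + 2 - (⌊α * ((n : ℝ) - 4 * D)⌋₊ : ℝ) := by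
        have h5 : ⌊α * ((n : ℝ) - 4 * D)⌋₊ ≤ ⌊α * (n : ℝ)⌋₊ := by
          apply Nat.floor_le_floor
          have : (0 : ℝ) ≤ D := Nat.cast_nonneg D
          nlinarith
        have h6 : (⌊α * n⌋₊ + 4 * D + 1 - (⌊α * ((n : ℝ) - 4 * D)⌋₊ - 1)) +
            ⌊α * ((n : ℝ) - 4 * D)⌋₊ ≤ ⌊α * n⌋₊ + 4 * D + 2 := by omega
        have h7 : (((⌊α * n⌋₊ + 4 * D + 1 - (⌊α * ((n : ℝ) - 4 * D)⌋₊ - 1)) +
            ⌊α * ((n : ℝ) - 4 * D)⌋₊ : ℕ) : ℝ) ≤ ((⌊α * n⌋₊ + 4 * D + 2 : ℕ) : ℝ) := by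
          exact_mod_cast h6
        rw [Nat.cast_add] at h7
        push_cast at h7 ⊢
        linarith
      have h8 := Nat.lt_floor_add_one (α * ((n : ℝ) - 4 * D))
      have : (0 : ℝ) ≤ D := Nat.cast_nonneg D
      nlinarith
    set y := ((D : ℝ) + 1) ^ (1 / 3 : ℝ) with hy
    have hy0 : 0 ≤ y := by positivity
    have hy3 : y ^ 3 = (D : ℝ) + 1 := by
      rw [hy, ← Real.rpow_natCast, ← Real.rpow_mul (by positivity)]
      norm_num
    calc ((win n D α).card : ℝ) ^ (2 / 3 : ℝ) ≤ ((2 * y) ^ 3) ^ (2 / 3 : ℝ) := by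
          apply Real.rpow_le_rpow (Nat.cast_nonneg _) _ (by norm_num)
          rw [mul_pow, hy3]
          linarith
      _ = (2 * y) ^ 2 := cube_root2 (by positivity)
      _ = 4 * y ^ 2 := by ring
  calc 18 * (n : ℝ) * ((((⌊α * n⌋₊ + 4 * D : ℕ) : ℝ) + 1) ^ (1 / 3 : ℝ) *
        ((win n D α).card : ℝ) ^ (2 / 3 : ℝ)) ≤
      18 * (n : ℝ) * ((13 / 10 * (n : ℝ) ^ (1 / 3 : ℝ)) * (4 * (((D : ℝ) + 1) ^ (1 / 3 : ℝ)) ^ 2)) := by
        gcongr
    _ = 93.6 * (n * ((n : ℝ) ^ (1 / 3 : ℝ) * (((D : ℝ) + 1) ^ (1 / 3 : ℝ)) ^ 2)) := by ring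
    _ ≤ _ := by
        have : 0 ≤ (n * ((n : ℝ) ^ (1 / 3 : ℝ) * (((D : ℝ) + 1) ^ (1 / 3 : ℝ)) ^ 2)) := by positivity
        nlinarith

/-- **few deletions, proportional levels** -/
theorem del_levels {a B : Fin n → ℝ} (hn : 0 < n) (hS : Simple a B) (A : Finset ℝ)
    (hA : ∀ α ∈ A, 0 < α ∧ α < 1) {δ : ℝ} (h0 : 0 < δ) (h1 : δ ≤ 1) :
    ∃ R : Finset (Fin n), (1 - δ) * n ≤ #R ∧
      (∀ α ∈ A, psi (sub a R) (sub B R) ⌊α * #R⌋₊ ≠ ⊤) ∧
      ∑ α ∈ A, ((psi (sub a R) (sub B R) ⌊α * #R⌋₊).toNat : ℝ) ≤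
        720 * n * (1 / δ) ^ (1 / 3 : ℝ) * ∑ α ∈ A, 1 / min α (1 - α) := by
  classical
  obtain ⟨P, hGP, hP⟩ := exists_GP hS
  have hn0 : (0 : ℝ) < n := by exact_mod_cast hn
  -- the number of deletions per group
  obtain ⟨D, hD1, hD2, hD3, hD4⟩ : ∃ D : ℕ, (D = 0 ∨ 4 * D + 8 ≤ n) ∧ 8 * D ≤ n ∧
      4 * (D : ℝ) ≤ δ * n ∧ (n : ℝ) / (D + 1) ≤ 16 / δ := by
    rcases Nat.lt_or_ge n 16 with h | h
    · refine ⟨0, Or.inl rfl, by omega, by simp; positivity, ?_⟩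
      have : (n : ℝ) ≤ 16 := by exact_mod_cast h.le
      simp only [Nat.cast_zero, zero_add, div_one]
      rw [le_div_iff₀ h0]
      nlinarith
    · have hfl := Nat.floor_le (show 0 ≤ δ * n / 8 by positivity)
      have hfl2 := Nat.lt_floor_add_one (δ * n / 8)
      refine ⟨⌊δ * n / 8⌋₊, ?_, ?_, ?_, ?_⟩
      · right
        have : (4 * (⌊δ * n / 8⌋₊ : ℝ) + 8) ≤ n := by
          have : (16 : ℝ) ≤ n := by exact_mod_cast h
          nlinarith
        exact_mod_cast this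
      · have : 8 * (⌊δ * n / 8⌋₊ : ℝ) ≤ n := by nlinarith
        exact_mod_cast this
      · nlinarith
      · rw [div_le_div_iff₀ (by positivity) h0]
        nlinarith
  set Bf : ℝ → ℕ := fun α => ⌈1 / min α (1 - α)⌉₊ with hBf
  have hBp : ∀ α ∈ A, 0 < Bf α ∧ 1 ≤ α * Bf α ∧ 1 ≤ (1 - α) * Bf α := by
    intro α hα
    obtain ⟨a0, a1⟩ := hA α hα
    have hc : 0 < min α (1 - α) := lt_min a0 (by linarith)
    have h2 : 1 / min α (1 - α) ≤ Bf α := Nat.le_ceil _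
    rw [div_le_iff₀ hc] at h2
    have h3 : (0 : ℝ) < Bf α := by
      by_contra h
      push Not at h
      nlinarith
    refine ⟨by exact_mod_cast h3, ?_, ?_⟩
    · have := min_le_left α (1 - α)
      nlinarith
    · have := min_le_right α (1 - α)
      nlinarith
  obtain ⟨R, hR1, hR2⟩ := exists_rem hGP hD1 A hA Bf hBp
  have hcR : (n : ℝ) ≤ #R + 4 * D := by exact_mod_cast hR1
  have hR0 : 0 < #R := by omega
  have hpsi : ∀ α ∈ A, psi (sub a R) (sub B R) ⌊α * #R⌋₊ ≤ ((verts P ⌊α * #R⌋₊ R : ℕ) : ℕ∞) := by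
    intro α hα
    obtain ⟨a0, a1⟩ := hA α hα
    have hk : ⌊α * (#R : ℝ)⌋₊ < #R := by
      have : (0 : ℝ) < #R := by exact_mod_cast hR0
      rw [Nat.floor_lt (by positivity)]
      nlinarith
    refine (psi_le (simple_sub hS R) hk).trans ?_
    apply Nat.cast_le.mpr
    unfold verts
    apply Nat.add_le_add (cross_sub2 hP R _)
    split_ifs
    · exact le_rfl
    · exact cross_sub2 hP R _
  refine ⟨R, by nlinarith, fun α hα => (toNat_le (hpsi α hα)).1, ?_⟩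
  have h2 : ∑ α ∈ A, ((psi (sub a R) (sub B R) ⌊α * #R⌋₊).toNat : ℝ) ≤
      ((∑ α ∈ A, verts P ⌊α * #R⌋₊ R : ℕ) : ℝ) := by
    rw [Nat.cast_sum]
    apply sum_le_sum
    intro α hα
    exact_mod_cast (toNat_le (hpsi α hα)).2
  refine h2.trans ?_
  set x := (n : ℝ) ^ (1 / 3 : ℝ) with hx
  set y := ((D : ℝ) + 1) ^ (1 / 3 : ℝ) with hy
  set z := (1 / δ) ^ (1 / 3 : ℝ) with hz
  have hx0 : 0 < x := by positivity
  have hy0 : 0 < y := by positivity
  have hz0 : 0 < z := by positivity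
  have hx3 : x ^ 3 = n := by
    rw [hx, ← Real.rpow_natCast, ← Real.rpow_mul hn0.le]
    norm_num
  have hy3 : y ^ 3 = (D : ℝ) + 1 := by
    rw [hy, ← Real.rpow_natCast, ← Real.rpow_mul (by positivity)]
    norm_num
  have hz3 : z ^ 3 = 1 / δ := by
    rw [hz, ← Real.rpow_natCast, ← Real.rpow_mul (by positivity)]
    norm_num
  have hxy : x ≤ 2.52 * z * y := by
    apply le_of_pow_le_pow_left₀ (n := 3) (by norm_num) (by positivity)
    rw [mul_pow, mul_pow, hx3, hy3, hz3]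
    rw [div_le_iff₀ (by positivity)] at hD4
    have : (n : ℝ) ≤ 16 * (1 / δ) * ((D : ℝ) + 1) := by
      calc (n : ℝ) ≤ 16 / δ * ((D : ℝ) + 1) := hD4
        _ = _ := by ring
    have h4 : 0 < 1 / δ * ((D : ℝ) + 1) := by positivity
    nlinarith
  have h3 : (((D + 1) * ∑ α ∈ A, verts P ⌊α * #R⌋₊ R : ℕ) : ℝ) ≤
      ∑ α ∈ A, 2 * (3 / 2 * (1 / min α (1 - α))) * (94 * n * (x * y ^ 2)) := by
    refine le_trans (by exact_mod_cast hR2 : (((D + 1) * ∑ α ∈ A, verts P ⌊α * #R⌋₊ R : ℕ) : ℝ) ≤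
      ((∑ α ∈ A, 2 * Bf α * #(EW P (win n D α)) : ℕ) : ℝ)) ?_
    push_cast
    apply sum_le_sum
    intro α hα
    obtain ⟨a0, a1⟩ := hA α hα
    have hc : 0 < min α (1 - α) := lt_min a0 (by linarith)
    have hc2 : min α (1 - α) ≤ 1 / 2 := by
      rcases le_total α (1 / 2) with h | h
      · exact (min_le_left _ _).trans h
      · exact (min_le_right _ _).trans (by linarith)
    have h4 : (Bf α : ℝ) ≤ 3 / 2 * (1 / min α (1 - α)) := by
      have h5 := Nat.ceil_lt_add_one (show 0 ≤ 1 / min α (1 - α) by positivity)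
      have h6 : 2 ≤ 1 / min α (1 - α) := by
        rw [le_div_iff₀ hc]
        linarith
      have h7 : (Bf α : ℝ) < 1 / min α (1 - α) + 1 := h5
      linarith
    have h5 := win_le hGP hD2 hn a0 a1
    exact mul_le_mul (mul_le_mul_of_nonneg_left h4 (by norm_num)) h5 (Nat.cast_nonneg _)
      (by positivity)
  rw [← sum_mul, ← mul_sum, ← mul_sum] at h3
  set Z := ∑ α ∈ A, 1 / min α (1 - α) with hZ
  have hZ0 : 0 ≤ Z := by
    apply sum_nonneg
    intro α hα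
    obtain ⟨a0, a1⟩ := hA α hα
    have hc : 0 < min α (1 - α) := lt_min a0 (by linarith)
    positivity
  set N := ((∑ α ∈ A, verts P ⌊α * #R⌋₊ R : ℕ) : ℝ) with hN
  have h4 : y ^ 3 * N ≤ y ^ 3 * (720 * n * z * Z) := by
    calc y ^ 3 * N = (((D + 1) * ∑ α ∈ A, verts P ⌊α * #R⌋₊ R : ℕ) : ℝ) := by
          rw [hy3, hN]; push_cast; ring
      _ ≤ 2 * (3 / 2 * Z) * (94 * n * (x * y ^ 2)) := h3
      _ = 282 * (n * Z * y ^ 2) * x := by ring
      _ ≤ 282 * (n * Z * y ^ 2) * (2.52 * z * y) := by gcongr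
      _ = 710.64 * (y ^ 3 * (n * z * Z)) := by ring
      _ ≤ 720 * (y ^ 3 * (n * z * Z)) := by
          have : 0 ≤ y ^ 3 * (n * z * Z) := by positivity
          nlinarith
      _ = _ := by ring
  exact le_of_mul_le_mul_left h4 (by positivity)

end Q119.Lev
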